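import Mathlib

set_option autoImplicit false
set_option linter.unusedSectionVars false
set_option linter.unusedVariables false

namespace Pool.Agent.Helper889.Hn

section words
variable {Z : Type}

/-- prepend a letter to an infinite word -/
def cns (x : Z) (ω : ℕ → Z) : ℕ → Z
  | 0 => x
  | n + 1 => ω n

/-- act by `σ` on the first letter satisfying `T` -/
def RF (T : Z → Bool) (σ : Equiv.Perm Z) (ω : ℕ → Z) : ℕ → Z :=
  fun t => if ∀ s < t, T (ω s) = false then σ (ω t) else ω t

/-- repeat every letter twice -/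
def dbl (ω : ℕ → Z) : ℕ → Z := fun t => ω (t / 2)

/-- repeat every letter `2^n` times -/
def code (n : ℕ) (ω : ℕ → Z) : ℕ → Z := fun t => ω (t / 2 ^ n)

theorem cns_eta (ω : ℕ → Z) : cns (ω 0) (fun n => ω (n + 1)) = ω := by
  funext n; cases n <;> rfl

theorem RF_cns (T : Z → Bool) (σ : Equiv.Perm Z) (hσ : ∀ z, T z = false → σ z = z) (x : Z) (ω : ℕ → Z) :
    RF T σ (cns x ω) = if T x = true then cns (σ x) ω else cns x (RF T σ ω) := by
  funext t
  cases t with
  | zero =>
    by_cases h : T x = true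
    · rw [if_pos h]; simp [RF, cns]
    · rw [if_neg h]
      have : T x = false := by simpa using h
      simp [RF, cns, hσ x this]
  | succ t =>
    by_cases h : T x = true
    · rw [if_pos h]
      have h1 : ¬ ∀ s < t + 1, T (cns x ω s) = false := by
        intro h2
        have := h2 0 (Nat.succ_pos t)
        simp only [cns] at this
        rw [h] at this
        exact Bool.noConfusion this
      simp only [RF]
      rw [if_neg h1]
      rfl
    · rw [if_neg h]
      have hx : T x = false := by simpa using h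
      have h1 : (∀ s < t + 1, T (cns x ω s) = false) ↔ ∀ s < t, T (ω s) = false := by
        constructor
        · intro h2 s hs
          exact h2 (s + 1) (by omega)
        · intro h2 s hs
          cases s with
          | zero => exact hx
          | succ s => exact h2 s (by omega)
      show (if ∀ s < t + 1, T (cns x ω s) = false then σ (ω t) else ω t) =
        (if ∀ s < t, T (ω s) = false then σ (ω t) else ω t)
      by_cases h3 : ∀ s < t, T (ω s) = false
      · rw [if_pos h3, if_pos (h1.mpr h3)]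
      · rw [if_neg h3, if_neg (fun h4 => h3 (h1.mp h4))]

theorem dbl_cns (x : Z) (ω : ℕ → Z) : dbl (cns x ω) = cns x (cns x (dbl ω)) := by
  funext t
  match t with
  | 0 => rfl
  | 1 => rfl
  | t + 2 =>
    show cns x ω ((t + 2) / 2) = ω (t / 2)
    rw [Nat.add_div_right _ (by norm_num)]
    rfl

theorem code_zero (ω : ℕ → Z) : code 0 ω = ω := by
  funext t; simp [code]

theorem code_succ (n : ℕ) (ω : ℕ → Z) : code (n + 1) ω = code n (dbl ω) := by
  funext t
  simp only [code, dbl]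
  rw [Nat.div_div_eq_div_mul, pow_succ]

theorem RF_one (T : Z → Bool) (ω : ℕ → Z) : RF T 1 ω = ω := by
  funext t; simp [RF]

theorem RF_mul (T : Z → Bool) (σ τ : Equiv.Perm Z) (hσ : ∀ z, T z = false → σ z = z)
    (hτ : ∀ z, T z = false → τ z = z) (ω : ℕ → Z) : RF T σ (RF T τ ω) = RF T (σ * τ) ω := by
  have hστ : ∀ z, T z = false → (σ * τ) z = z := fun z hz => by
    rw [Equiv.Perm.mul_apply, hτ z hz, hσ z hz]
  have hT : ∀ z, T z = true → T (τ z) = true := by
    intro z hz
    by_contra h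
    have h1 : T (τ z) = false := by simpa using h
    have h2 := hτ _ h1
    have h3 := τ.injective h2
    rw [h3] at h1
    rw [hz] at h1
    exact Bool.noConfusion h1
  funext t
  induction t generalizing ω with
  | zero => simp [RF]
  | succ t ih =>
    rw [← cns_eta ω, RF_cns T τ hτ, RF_cns T (σ * τ) hστ]
    by_cases h : T (ω 0) = true
    · rw [if_pos h, if_pos h, RF_cns T σ hσ, if_pos (hT _ h)]
      rfl
    · rw [if_neg h, if_neg h, RF_cns T σ hσ, if_neg h]
      exact ih _

/-- permutations fixing the letters outside `T` -/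
def Fx (T : Z → Bool) : Subgroup (Equiv.Perm Z) where
  carrier := {σ | ∀ z, T z = false → σ z = z}
  one_mem' := fun z _ => rfl
  mul_mem' := by
    intro a b ha hb z hz
    rw [Equiv.Perm.mul_apply, hb z hz, ha z hz]
  inv_mem' := by
    intro a ha z hz
    rw [Equiv.Perm.inv_eq_iff_eq, ha z hz]

/-- `RF` as a homomorphism -/
def RP (T : Z → Bool) : Fx T →* Equiv.Perm (ℕ → Z) where
  toFun σ := ⟨RF T σ.1, RF T (σ⁻¹ : Fx T).1,
    fun ω => by rw [RF_mul T _ _ (σ⁻¹ : Fx T).2 σ.2]; simp [RF_one],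
    fun ω => by rw [RF_mul T _ _ σ.2 (σ⁻¹ : Fx T).2]; simp [RF_one]⟩
  map_one' := by ext1 w; exact RF_one T w
  map_mul' s t := by ext1 w; exact (RF_mul T s.1 t.1 s.2 t.2 w).symm

/-- the direct power acting below the first letter -/
def PF (w : Z → Equiv.Perm (ℕ → Z)) (ω : ℕ → Z) : ℕ → Z := cns (ω 0) (w (ω 0) (fun n => ω (n + 1)))

theorem PF_cns (w : Z → Equiv.Perm (ℕ → Z)) (x : Z) (ω : ℕ → Z) : PF w (cns x ω) = cns x (w x ω) := rfl

def PP : (Z → Equiv.Perm (ℕ → Z)) →* Equiv.Perm (ℕ → Z) where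
  toFun w := ⟨PF w, PF w⁻¹,
    fun ω => by
      show PF w⁻¹ (cns (ω 0) (w (ω 0) (fun n => ω (n + 1)))) = ω
      rw [PF_cns, Pi.inv_apply, ← Equiv.Perm.mul_apply, inv_mul_cancel]
      exact cns_eta ω,
    fun ω => by
      show PF w (cns (ω 0) ((w (ω 0))⁻¹ (fun n => ω (n + 1)))) = ω
      rw [PF_cns, ← Equiv.Perm.mul_apply, mul_inv_cancel]
      exact cns_eta ω⟩
  map_one' := by ext1 ω; exact cns_eta ω
  map_mul' s t := by ext1 ω; rfl

theorem PP_apply (w : Z → Equiv.Perm (ℕ → Z)) (x : Z) (ω : ℕ → Z) : PP w (cns x ω) = cns x (w x ω) := rfl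

end words

/-- the Hanoi generator `a_{ij}` as a permutation -/
def hanT {k : ℕ} (i j : Fin k) : Fin k → Bool := fun z => decide (z = i) || decide (z = j)

theorem hanT_fx {k : ℕ} (i j : Fin k) : Equiv.swap i j ∈ Fx (hanT i j) := by
  intro z hz
  simp only [hanT, Bool.or_eq_false_iff, decide_eq_false_iff_not] at hz
  exact Equiv.swap_apply_of_ne_of_ne hz.1 hz.2

def han {k : ℕ} (i j : Fin k) : Equiv.Perm (ℕ → Fin k) := RP (hanT i j) ⟨Equiv.swap i j, hanT_fx i j⟩

/-- the Hanoi towers group -/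
def HK (k : ℕ) : Subgroup (Equiv.Perm (ℕ → Fin k)) := Subgroup.closure (Set.range fun p : Fin k × Fin k => han p.1 p.2)

/-! the concrete system -/
abbrev A0 := alternatingGroup (Fin 7)
abbrev XX (m : ℕ) := Fin m × Fin 7
abbrev AA (m : ℕ) := Fin m → A0

/-- the rooted action on the letters -/
def actA (m : ℕ) : AA m →* Equiv.Perm (XX m) where
  toFun σ := ⟨fun x => (x.1, (σ x.1).1 x.2), fun x => (x.1, ((σ x.1)⁻¹ : A0).1 x.2),
    fun x => by simp, fun x => by simp⟩
  map_one' := by ext1 x; rfl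
  map_mul' s t := by ext1 x; rfl

def yy (j : Bool) : Fin 7 := if j then 1 else 0

/-- the elements fixing the letters `(i, yy j)` -/
def BB (m : ℕ) (j : Bool) : Subgroup (AA m) where
  carrier := {β | ∀ i, (β i).1 (yy j) = yy j}
  one_mem' := fun i => rfl
  mul_mem' := by
    intro a b ha hb i
    show (a i).1 ((b i).1 (yy j)) = yy j
    rw [hb i, ha i]
  inv_mem' := by
    intro a ha i
    show (a i).1⁻¹ (yy j) = yy j
    rw [Equiv.Perm.inv_eq_iff_eq, ha i]

def QQ (m : ℕ) (j : Bool) (x : XX m) : Bool := decide (x.2 = yy j)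

def TT (m : ℕ) (j : Bool) (x : XX m) : Bool := !(QQ m j x)

theorem BB_fx (m : ℕ) (j : Bool) (β : BB m j) : actA m β.1 ∈ Fx (TT m j) := by
  intro x hx
  have h1 : x.2 = yy j := by simpa [TT, QQ] using hx
  obtain ⟨i, y⟩ := x
  simp only at h1
  subst h1
  exact Prod.ext rfl (β.2 i)

theorem AA_fx (m : ℕ) (σ : AA m) : actA m σ ∈ Fx (fun _ : XX m => true) := by
  intro x hx
  exact Bool.noConfusion hx

/-- rooted elements -/
def rt (m : ℕ) : AA m →* Equiv.Perm (ℕ → XX m) where
  toFun σ := RP (fun _ : XX m => true) ⟨actA m σ, AA_fx m σ⟩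
  map_one' := by rw [← map_one (RP (fun _ : XX m => true))]; rfl
  map_mul' s t := by rw [← map_mul]; rfl

/-- recursive elements -/
def rr (m : ℕ) (j : Bool) : BB m j →* Equiv.Perm (ℕ → XX m) where
  toFun β := RP (TT m j) ⟨actA m β.1, BB_fx m j β⟩
  map_one' := by rw [← map_one (RP (TT m j))]; rfl
  map_mul' s t := by rw [← map_mul]; rfl

theorem rt_def (m : ℕ) (σ : AA m) (ω : ℕ → XX m) : rt m σ ω = RF (fun _ => true) (actA m σ) ω := rfl

theorem rr_def (m : ℕ) (j : Bool) (β : BB m j) (ω : ℕ → XX m) : rr m j β ω = RF (TT m j) (actA m β.1) ω := rfl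

theorem rt_cns (m : ℕ) (σ : AA m) (x : XX m) (ω : ℕ → XX m) : rt m σ (cns x ω) = cns (actA m σ x) ω := by
  rw [rt_def, RF_cns _ _ (AA_fx m σ), if_pos rfl]

theorem rr_cns (m : ℕ) (j : Bool) (β : BB m j) (x : XX m) (ω : ℕ → XX m) :
    rr m j β (cns x ω) = if x.2 = yy j then cns x (rr m j β ω) else cns (actA m β.1 x) ω := by
  rw [rr_def, rr_def, RF_cns _ _ (BB_fx m j β)]
  by_cases h : x.2 = yy j
  · rw [if_pos h, if_neg (by simp [TT, QQ, h])]
  · rw [if_neg h, if_pos (by simp [TT, QQ, h])]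

/-- the group -/
def GG (m : ℕ) : Subgroup (Equiv.Perm (ℕ → XX m)) :=
  Subgroup.closure (Set.range (rt m) ∪ ⋃ j, Set.range (rr m j))

end Pool.Agent.Helper889.Hn

namespace Pool.Agent.Helper889.Hn

noncomputable instance (m : ℕ) (j : Bool) : Fintype (BB m j) := Fintype.ofFinite _

/-- the two relations used for bounded generation -/
def Rel {m : ℕ} {G : Type} [Group G] (iA : AA m →* G) (iR : (j : Bool) → BB m j →* G) : Prop :=
  (∀ (a b : AA m) (ha0 : a ∈ BB m false) (ha1 : a ∈ BB m true) (hb0 : b ∈ BB m false) (hb1 : b ∈ BB m true),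
    iR false ⟨a, ha0⟩ * iR true ⟨b, hb1⟩ * (iR false ⟨a, ha0⟩)⁻¹ * (iR true ⟨b, hb1⟩)⁻¹ = iA (a * b * a⁻¹ * b⁻¹)) ∧
  (∀ (j : Bool) (β ρ : BB m j), iR j β * iA ρ.1 * (iR j β)⁻¹ = iA (β.1 * ρ.1 * β.1⁻¹))

end Pool.Agent.Helper889.Hn
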