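import Mathlib
import Pool.Agent.Helper889.Hn.Words

set_option autoImplicit false
set_option linter.unusedSectionVars false
set_option linter.unusedVariables false

namespace Pool.Agent.Helper889.Hn

theorem PP_single_mem_ex : ∀ a b : Fin 7, ∃ c d : Fin 7, c ≠ d ∧ c ≠ a ∧ c ≠ b ∧ d ≠ a ∧ d ≠ b := by
  decide

theorem PP_single_mem_even (a b : Fin 7) : ∃ σ : A0, σ.1 a = b := by
  by_cases h : a = b
  · exact ⟨1, by rw [h]; rfl⟩
  · obtain ⟨c, d, hcd, hca, hcb, hda, hdb⟩ := PP_single_mem_ex a b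
    refine ⟨⟨Equiv.swap a b * Equiv.swap c d, ?_⟩, ?_⟩
    · rw [Equiv.Perm.mem_alternatingGroup, Equiv.Perm.sign_mul, Equiv.Perm.sign_swap h,
        Equiv.Perm.sign_swap hcd]
      decide
    · show Equiv.swap a b (Equiv.swap c d a) = b
      rw [Equiv.swap_apply_of_ne_of_ne hca.symm hda.symm, Equiv.swap_apply_left]

/-- TARGET -/
theorem PP_single_mem (m : ℕ)
    (conj_PP : ∀ (σ : AA m) (w : XX m → Equiv.Perm (ℕ → XX m)), rt m σ * PP w * (rt m σ)⁻¹ = PP (fun x => w (actA m σ⁻¹ x)))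
    (rr_eq : ∀ (j : Bool) (β : BB m j), rr m j β = rt m (β : AA m) * PP (fun x => if QQ m j x = true then rr m j β else 1))
    (perfBB : ∀ (j : Bool) (S : Subgroup (BB m j)), (∀ a b : BB m j, a * b * a⁻¹ * b⁻¹ ∈ S) → S = ⊤)
    (hgen : ∀ σ : AA m, rt m σ ∈ Subgroup.closure (⋃ j, Set.range (rr m j)))
    (x : XX m) (g : Equiv.Perm (ℕ → XX m)) (hg : g ∈ GG m) : PP (Pi.mulSingle x g) ∈ GG m := by
  classical
  -- step 1
  have hU0 : ∀ (j : Bool) (β : BB m j),
      PP (fun x : XX m => if x.2 = yy j then rr m j β else 1) ∈ GG m := by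
    intro j β
    have h1 : (fun x : XX m => if QQ m j x = true then rr m j β else 1) =
        (fun x : XX m => if x.2 = yy j then rr m j β else 1) := by
      funext x
      by_cases h : x.2 = yy j
      · rw [if_pos h, if_pos (by simp [QQ, h])]
      · rw [if_neg h, if_neg (by simp [QQ, h])]
    have h2 := rr_eq j β
    rw [h1] at h2
    have h3 : PP (fun x : XX m => if x.2 = yy j then rr m j β else 1) =
        (rt m (β : AA m))⁻¹ * rr m j β := by
      rw [eq_inv_mul_iff_mul_eq]
      exact h2.symm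
    rw [h3]
    refine mul_mem (inv_mem ?_) ?_
    · exact Subgroup.subset_closure (Or.inl ⟨_, rfl⟩)
    · exact Subgroup.subset_closure (Or.inr (Set.mem_iUnion.mpr ⟨j, ⟨_, rfl⟩⟩))
  have hU : ∀ (s : Fin m → Fin 7) (j : Bool) (β : BB m j),
      PP (fun x : XX m => if x.2 = s x.1 then rr m j β else 1) ∈ GG m := by
    intro s j β
    have hσ : ∀ i, ∃ σ : A0, σ.1 (yy j) = s i := fun i => PP_single_mem_even _ _
    choose σ hσ using hσ
    have h1 := conj_PP σ (fun x : XX m => if x.2 = yy j then rr m j β else 1)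
    have h2 : (fun x : XX m => (fun x : XX m => if x.2 = yy j then rr m j β else 1)
        (actA m (σ : AA m)⁻¹ x)) = (fun x : XX m => if x.2 = s x.1 then rr m j β else 1) := by
      funext x
      have h3 : (actA m (σ : AA m)⁻¹ x).2 = yy j ↔ x.2 = s x.1 := by
        show ((σ x.1)⁻¹ : A0).1 x.2 = yy j ↔ x.2 = s x.1
        rw [← hσ x.1]
        show (σ x.1).1⁻¹ x.2 = yy j ↔ x.2 = (σ x.1).1 (yy j)
        rw [Equiv.Perm.inv_eq_iff_eq]
      by_cases h : x.2 = s x.1
      · rw [if_pos h]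
        show (if (actA m (σ : AA m)⁻¹ x).2 = yy j then rr m j β else 1) = _
        rw [if_pos (h3.mpr h)]
      · rw [if_neg h]
        show (if (actA m (σ : AA m)⁻¹ x).2 = yy j then rr m j β else 1) = _
        rw [if_neg (fun h4 => h (h3.mp h4))]
    rw [h2] at h1
    rw [← h1]
    have h5 : rt m (σ : AA m) ∈ GG m := Subgroup.subset_closure (Or.inl ⟨_, rfl⟩)
    exact mul_mem (mul_mem h5 (hU0 j β)) (inv_mem h5)
  -- step 2
  have hcomm : ∀ (j : Bool) (β β' : BB m j),
      PP (Pi.mulSingle x (rr m j (β * β' * β⁻¹ * β'⁻¹))) ∈ GG m := by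
    intro j β β'
    obtain ⟨i0, y0⟩ := x
    obtain ⟨y1, hy1⟩ : ∃ y1 : Fin 7, y1 ≠ y0 := exists_ne y0
    have hA := hU (fun _ => y0) j β
    have hB := hU (fun i => if i = i0 then y0 else y1) j β'
    have hC := mul_mem (mul_mem (mul_mem hA hB) (inv_mem hA)) (inv_mem hB)
    rw [← map_inv, ← map_inv, ← map_mul, ← map_mul, ← map_mul] at hC
    convert hC using 2
    funext z
    obtain ⟨i, y⟩ := z
    simp only [Pi.mul_apply, Pi.inv_apply]
    by_cases hz : ((i, y) : XX m) = (i0, y0)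
    · have hi : i = i0 := congrArg Prod.fst hz
      have hy : y = y0 := congrArg Prod.snd hz
      subst hi; subst hy
      rw [Pi.mulSingle_eq_same, if_pos rfl, if_pos (if_pos rfl).symm]
      rw [map_mul, map_mul, map_mul, map_inv, map_inv]
    · rw [Pi.mulSingle_eq_of_ne hz]
      by_cases hi : i = i0
      · have hy : y ≠ y0 := fun h => hz (by rw [hi, h])
        rw [if_pos hi, if_neg hy, if_neg hy]
        simp
      · rw [if_neg hi]
        by_cases hy : y = y0
        · rw [if_pos hy, if_neg (by rw [hy]; exact hy1.symm)]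
          simp
        · rw [if_neg hy]
          simp
  -- step 3
  let φ : Equiv.Perm (ℕ → XX m) →* Equiv.Perm (ℕ → XX m) :=
    PP.comp (MonoidHom.mulSingle (fun _ : XX m => Equiv.Perm (ℕ → XX m)) x)
  have hS : ∀ (j : Bool) (β : BB m j), φ (rr m j β) ∈ GG m := by
    intro j β
    have h1 : ((GG m).comap (φ.comp (rr m j))) = ⊤ := by
      apply perfBB j
      intro a b
      rw [Subgroup.mem_comap]
      exact hcomm j a b
    have h2 : β ∈ ((GG m).comap (φ.comp (rr m j))) := by rw [h1]; exact Subgroup.mem_top _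
    exact h2
  -- step 4
  have hK1 : Subgroup.closure (⋃ j, Set.range (rr m j)) ≤ (GG m).comap φ := by
    rw [Subgroup.closure_le]
    intro y hy
    obtain ⟨j, β, rfl⟩ := Set.mem_iUnion.mp hy
    exact hS j β
  have hK : GG m ≤ (GG m).comap φ := by
    show Subgroup.closure (Set.range (rt m) ∪ ⋃ j, Set.range (rr m j)) ≤ _
    rw [Subgroup.closure_le]
    rintro y (⟨σ, rfl⟩ | hy)
    · exact hK1 (hgen σ)
    · exact hK1 (Subgroup.subset_closure hy)
  exact hK hg

end Pool.Agent.Helper889.Hn
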