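import Mathlib
import Pool.Agent.Helper889.Na.Fn

set_option autoImplicit false
set_option linter.unusedSectionVars false
set_option linter.unusedVariables false

namespace Pool.Agent.Helper889.Hn

open Pool.Agent.Helper889.Na (tr ip N)

/-- Abstract data of a group `G` with rooted part `A` and two recursive families `iR j`. -/
structure Core {X A : Type} [Group A] (act : A →* Equiv.Perm X) (B : Bool → Subgroup A)
    (Q : Bool → X → Bool) (G : Type) [Group G] where
  iA : A →* G
  iR : (j : Bool) → B j →* G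
  P : (X → G) →* G
  P_inj : Function.Injective P
  gen : Subgroup.closure (Set.range iA ∪ ⋃ j, Set.range (iR j)) = ⊤
  dec : ∀ g : G, ∃ (σ : A) (w : X → G), g = iA σ * P w
  dec_inj : ∀ (σ : A) (w : X → G), iA σ * P w = 1 → σ = 1
  conj : ∀ (σ : A) (w : X → G), iA σ * P w * (iA σ)⁻¹ = P (fun x => w (act σ⁻¹ x))
  dirR : ∀ (j : Bool) (β : B j), iR j β = iA (β : A) * P (fun x => if Q j x = true then iR j β else 1)

namespace Core

variable {X A : Type} [Fintype X] [DecidableEq X] [Group A] [Fintype A] {act : A →* Equiv.Perm X}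
  {B : Bool → Subgroup A} [∀ j, Fintype (B j)] {Q : Bool → X → Bool} {G : Type} [Group G]
  (c : Core act B Q G)

/-- generators -/
def S : Set G := Set.range c.iA ∪ ⋃ j, Set.range (c.iR j)

/-- ball of radius `R` in the word metric -/
def ball (R : ℕ) : Set G := {g | ∃ l : List G, l.length ≤ R ∧ (∀ s ∈ l, s ∈ c.S) ∧ l.prod = g}

/-- the generators of `G^X` -/
def gW (j : Bool) (τ : A) (β : B j) : X → G := fun x => if Q j (act τ x) = true then c.iR j β else 1

/-- energy on `G` -/
noncomputable def ED (ψ : G →₀ ℝ) : ℝ :=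
  4 * ((∑ σ : A, N (tr (c.iA σ) ψ - ψ)) / (Fintype.card A : ℝ)) +
    ∑ j : Bool, (∑ β : B j, N (tr (c.iR j β) ψ - ψ)) / (Fintype.card (B j) : ℝ)

/-- energy in the coordinate `x` -/
noncomputable def EX (x : X) (φ : (X → G) →₀ ℝ) : ℝ :=
  4 * ((∑ σ : A, N (tr (Pi.mulSingle x (c.iA σ)) φ - φ)) / (Fintype.card A : ℝ)) +
    ∑ j : Bool, (∑ β : B j, N (tr (Pi.mulSingle x (c.iR j β)) φ - φ)) / (Fintype.card (B j) : ℝ)

/-- energy on `G^X` -/
noncomputable def EW (φ : (X → G) →₀ ℝ) : ℝ :=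
  ∑ j : Bool, ∑ τ : A, (∑ β : B j, N (tr (c.gW j τ β) φ - φ)) / (Fintype.card (B j) : ℝ)

end Core

end Pool.Agent.Helper889.Hn
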