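import Mathlib
import Pool.Agent.Helper889.Hn.Words

set_option autoImplicit false
set_option linter.unusedSectionVars false
set_option linter.unusedVariables false

namespace Pool.Agent.Helper889.Hn

/-- TARGETS -/
theorem aux_trans7 (z z' : Fin 7) : ∃ ρ : A0, ρ.1 z = z' := by
  have hw : ∀ z z' : Fin 7, ∃ w : Fin 7, w ≠ z ∧ w ≠ z' := by decide
  obtain ⟨w, hwz, hwz'⟩ := hw z z'
  refine ⟨⟨Equiv.swap w z' * Equiv.swap z w, ?_⟩, ?_⟩
  · rw [Equiv.Perm.mem_alternatingGroup, Equiv.Perm.sign_mul, Equiv.Perm.sign_swap hwz',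
      Equiv.Perm.sign_swap hwz.symm]
    simp
  · show Equiv.swap w z' (Equiv.swap z w z) = z'
    rw [Equiv.swap_apply_left, Equiv.swap_apply_left]

theorem aux_cnt7 (m : ℕ) (i : Fin m) (y z z' : Fin 7) :
    (Finset.univ.filter fun τ : AA m => (τ i).1 y = z).card =
      (Finset.univ.filter fun τ : AA m => (τ i).1 y = z').card := by
  classical
  have key : ∀ z z' : Fin 7, (Finset.univ.filter fun τ : AA m => (τ i).1 y = z).card ≤
      (Finset.univ.filter fun τ : AA m => (τ i).1 y = z').card := by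
    intro z z'
    obtain ⟨ρ, hρ⟩ := aux_trans7 z z'
    refine Finset.card_le_card_of_injOn (fun τ => Pi.mulSingle i ρ * τ) ?_ ?_
    · intro τ hτ
      have h1 : (τ i).1 y = z := by simpa using hτ
      have h2 : ((Pi.mulSingle i ρ * τ : AA m) i).1 y = z' := by
        rw [Pi.mul_apply, Pi.mulSingle_eq_same]
        show ρ.1 ((τ i).1 y) = z'
        rw [h1, hρ]
      simpa using h2
    · intro a _ b _ hab
      exact mul_left_cancel hab
  exact le_antisymm (key z z') (key z' z)

theorem cnt7 (m : ℕ) (j : Bool) (x : XX m) :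
    (7 : ℝ) * ((Finset.univ.filter fun τ : AA m => QQ m j (actA m τ x) = true).card : ℝ) = (Fintype.card (AA m) : ℝ) := by
  classical
  obtain ⟨i, y⟩ := x
  have h1 : (Finset.univ.filter fun τ : AA m => QQ m j (actA m τ (i, y)) = true) =
      (Finset.univ.filter fun τ : AA m => (τ i).1 y = yy j) := by
    apply Finset.filter_congr
    intro τ _
    show decide ((τ i).1 y = yy j) = true ↔ (τ i).1 y = yy j
    exact decide_eq_true_iff
  rw [h1]
  have h2 : (Finset.univ : Finset (AA m)).card =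
      ∑ z ∈ (Finset.univ : Finset (Fin 7)), (Finset.univ.filter fun τ : AA m => (τ i).1 y = z).card :=
    Finset.card_eq_sum_card_fiberwise (fun τ _ => Finset.mem_coe.2 (Finset.mem_univ _))
  have h3 : (Fintype.card (AA m)) = 7 * (Finset.univ.filter fun τ : AA m => (τ i).1 y = yy j).card := by
    rw [← Finset.card_univ, h2, Finset.sum_congr rfl (fun z _ => aux_cnt7 m i y z (yy j))]
    rw [Finset.sum_const, Finset.card_univ, Fintype.card_fin, smul_eq_mul]
  rw [h3]
  push_cast
  ring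

theorem cardBB (m : ℕ) : Fintype.card (BB m false) = Fintype.card (BB m true) := by
  classical
  obtain ⟨ρ, hρ⟩ := aux_trans7 (yy false) (yy true)
  have hρ' : ρ.1⁻¹ (yy true) = yy false := by
    rw [Equiv.Perm.inv_eq_iff_eq, hρ]
  let c : AA m := fun _ => ρ
  refine Fintype.card_congr ⟨fun β => ⟨c * β.1 * c⁻¹, ?_⟩, fun β => ⟨c⁻¹ * β.1 * c, ?_⟩, ?_, ?_⟩
  · intro i
    have h1 := β.2 i
    show ρ.1 ((β.1 i).1 (ρ.1⁻¹ (yy true))) = yy true
    rw [hρ', h1, hρ]
  · intro i
    have h1 := β.2 i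
    show ρ.1⁻¹ ((β.1 i).1 (ρ.1 (yy false))) = yy false
    rw [hρ, h1, hρ']
  · intro β
    apply Subtype.ext
    show c⁻¹ * (c * β.1 * c⁻¹) * c = β.1
    group
  · intro β
    apply Subtype.ext
    show c * (c⁻¹ * β.1 * c) * c⁻¹ = β.1
    group

end Pool.Agent.Helper889.Hn
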