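import Mathlib
import Pool.Agent.Helper889.Hn.Words
import Pool.Agent.Helper889.Hn.Defs

set_option autoImplicit false
set_option linter.unusedSectionVars false
set_option linter.unusedVariables false

namespace Pool.Agent.Helper889.Hn

theorem core_rt_mem (m : ℕ) (s : AA m) : rt m s ∈ GG m := Subgroup.subset_closure (Or.inl ⟨s, rfl⟩)

theorem core_rr_mem (m : ℕ) (j : Bool) (b : BB m j) : rr m j b ∈ GG m :=
  Subgroup.subset_closure (Or.inr (Set.mem_iUnion.mpr ⟨j, b, rfl⟩))

theorem core_exists_mem (m : ℕ)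
    (PP_single_mem : ∀ (x : XX m) (g : Equiv.Perm (ℕ → XX m)), g ∈ GG m → PP (Pi.mulSingle x g) ∈ GG m)
    (u : XX m → Equiv.Perm (ℕ → XX m)) (hu : ∀ x, u x ∈ GG m) : PP u ∈ GG m := by
  have h : u ∈ (GG m).comap PP := by
    apply Subgroup.pi_mem_of_mulSingle_mem
    intro x
    exact PP_single_mem x (u x) (hu x)
  exact h

theorem core_exists_dec (m : ℕ)
    (conj_PP : ∀ (σ : AA m) (w : XX m → Equiv.Perm (ℕ → XX m)), rt m σ * PP w * (rt m σ)⁻¹ = PP (fun x => w (actA m σ⁻¹ x)))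
    (rr_eq : ∀ (j : Bool) (β : BB m j), rr m j β = rt m (β : AA m) * PP (fun x => if QQ m j x = true then rr m j β else 1))
    (g : Equiv.Perm (ℕ → XX m)) (hg : g ∈ GG m) :
    ∃ (σ : AA m) (w : XX m → Equiv.Perm (ℕ → XX m)), (∀ x, w x ∈ GG m) ∧ g = rt m σ * PP w := by
  induction hg using Subgroup.closure_induction with
  | mem g hg =>
    rcases hg with ⟨s, rfl⟩ | hg
    · exact ⟨s, 1, fun _ => one_mem _, by rw [map_one, mul_one]⟩
    · obtain ⟨j, b, rfl⟩ := Set.mem_iUnion.mp hg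
      refine ⟨(b : AA m), _, ?_, rr_eq j b⟩
      intro x
      split_ifs
      · exact core_rr_mem m j b
      · exact one_mem _
  | one => exact ⟨1, 1, fun _ => one_mem _, by rw [map_one, map_one, mul_one]⟩
  | mul g h _ _ ihg ihh =>
    obtain ⟨σ, w, hw, rfl⟩ := ihg
    obtain ⟨τ, v, hv, rfl⟩ := ihh
    refine ⟨σ * τ, fun x => w (actA m (τ⁻¹)⁻¹ x) * v x, fun x => mul_mem (hw _) (hv _), ?_⟩
    have h1 := conj_PP τ⁻¹ w
    have h2 : PP (fun x => w (actA m (τ⁻¹)⁻¹ x) * v x) =
        PP (fun x => w (actA m (τ⁻¹)⁻¹ x)) * PP v := by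
      rw [← map_mul]; rfl
    rw [h2, ← h1, map_mul, map_inv]
    group
  | inv g _ ihg =>
    obtain ⟨σ, w, hw, rfl⟩ := ihg
    refine ⟨σ⁻¹, fun x => w⁻¹ (actA m σ⁻¹ x), fun x => inv_mem (hw _), ?_⟩
    rw [← conj_PP σ w⁻¹, map_inv, map_inv]
    group

/-- TARGET -/
theorem core_exists (m : ℕ) (hm : 0 < m)
    (conj_PP : ∀ (σ : AA m) (w : XX m → Equiv.Perm (ℕ → XX m)), rt m σ * PP w * (rt m σ)⁻¹ = PP (fun x => w (actA m σ⁻¹ x)))
    (rr_eq : ∀ (j : Bool) (β : BB m j), rr m j β = rt m (β : AA m) * PP (fun x => if QQ m j x = true then rr m j β else 1))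
    (PP_single_mem : ∀ (x : XX m) (g : Equiv.Perm (ℕ → XX m)), g ∈ GG m → PP (Pi.mulSingle x g) ∈ GG m) :
    ∃ c : Core (actA m) (BB m) (QQ m) (GG m), (∀ a, ((c.iA a : GG m) : Equiv.Perm (ℕ → XX m)) = rt m a) ∧
      (∀ j b, ((c.iR j b : GG m) : Equiv.Perm (ℕ → XX m)) = rr m j b) := by
  refine ⟨{ iA := (rt m).codRestrict (GG m) (core_rt_mem m)
            iR := fun j => (rr m j).codRestrict (GG m) (core_rr_mem m j)
            P := { toFun := fun w => ⟨PP (fun x => (w x : Equiv.Perm (ℕ → XX m))),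
                    core_exists_mem m PP_single_mem _ fun x => (w x).2⟩
                   map_one' := Subtype.ext (map_one PP)
                   map_mul' := fun w v => Subtype.ext
                    (map_mul PP (fun x => (w x : Equiv.Perm (ℕ → XX m)))
                      (fun x => (v x : Equiv.Perm (ℕ → XX m)))) }
            P_inj := ?_
            gen := ?_
            dec := ?_
            dec_inj := ?_
            conj := ?_
            dirR := ?_ }, fun _ => rfl, fun _ _ => rfl⟩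
  · intro w v h
    have h1 : PP (fun x => (w x : Equiv.Perm (ℕ → XX m))) =
      PP (fun x => (v x : Equiv.Perm (ℕ → XX m))) := congrArg Subtype.val h
    funext x
    apply Subtype.ext
    ext1 l
    have h2 := congrArg (fun p : Equiv.Perm (ℕ → XX m) => p (cns x l)) h1
    have h3 : cns x ((w x : Equiv.Perm (ℕ → XX m)) l) = cns x ((v x : Equiv.Perm (ℕ → XX m)) l) := h2
    funext t
    exact congrFun h3 (t + 1)
  · have h1 : (Set.range ((rt m).codRestrict (GG m) (core_rt_mem m)) ∪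
        ⋃ j, Set.range ((rr m j).codRestrict (GG m) (core_rr_mem m j))) =
        (((↑) : GG m → Equiv.Perm (ℕ → XX m)) ⁻¹' (Set.range (rt m) ∪ ⋃ j, Set.range (rr m j))) := by
      ext g
      constructor
      · rintro (⟨a, rfl⟩ | hg)
        · exact Or.inl ⟨a, rfl⟩
        · obtain ⟨j, b, rfl⟩ := Set.mem_iUnion.mp hg
          exact Or.inr (Set.mem_iUnion.mpr ⟨j, b, rfl⟩)
      · rintro (⟨a, ha⟩ | hg)
        · exact Or.inl ⟨a, Subtype.ext ha⟩
        · obtain ⟨j, b, hb⟩ := Set.mem_iUnion.mp hg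
          exact Or.inr (Set.mem_iUnion.mpr ⟨j, b, Subtype.ext hb⟩)
    rw [h1]
    exact Subgroup.closure_closure_coe_preimage
  · rintro ⟨g, hg⟩
    obtain ⟨σ, w, hw, h⟩ := core_exists_dec m conj_PP rr_eq g hg
    exact ⟨σ, fun x => ⟨w x, hw x⟩, Subtype.ext h⟩
  · intro σ w h
    have h1 : rt m σ * PP (fun x => (w x : Equiv.Perm (ℕ → XX m))) = 1 := congrArg Subtype.val h
    funext i
    apply Subtype.ext
    ext1 y
    have h2 := congrArg (fun p : Equiv.Perm (ℕ → XX m) => p (cns (i, y) (fun _ => (i, y)))) h1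
    have h3 : rt m σ (PP (fun x => (w x : Equiv.Perm (ℕ → XX m))) (cns (i, y) (fun _ => (i, y)))) =
      cns (i, y) (fun _ => (i, y)) := h2
    rw [PP_apply, rt_cns] at h3
    have h4 : actA m σ (i, y) = (i, y) := congrFun h3 0
    exact congrArg Prod.snd h4
  · intro σ w
    exact Subtype.ext (conj_PP σ (fun x => (w x : Equiv.Perm (ℕ → XX m))))
  · intro j β
    apply Subtype.ext
    refine (rr_eq j β).trans ?_
    show rt m (β : AA m) * PP _ = rt m (β : AA m) * PP _
    congr 2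
    funext x
    by_cases h0 : QQ m j x = true
    · simp only [if_pos h0]; rfl
    · simp only [if_neg h0]; rfl

end Pool.Agent.Helper889.Hn
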