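import Mathlib
import Pool.Agent.Helper889.Hn.Defs

set_option autoImplicit false
set_option linter.unusedSectionVars false
set_option linter.unusedVariables false

namespace Pool.Agent.Helper889.Hn
open Pool.Agent.Helper889.Na
namespace Core
variable {X A : Type} [Fintype X] [DecidableEq X] [Group A] [Fintype A] {act : A →* Equiv.Perm X}
  {B : Bool → Subgroup A} [∀ j, Fintype (B j)] {Q : Bool → X → Bool} {G : Type} [Group G]
  (c : Core act B Q G)

theorem count (d : ℝ) (hd : 0 < d) (hcnt : ∀ (j : Bool) (x : X), d * ((Finset.univ.filter fun τ : A => Q j (act τ x) = true).card : ℝ) = (Fintype.card A : ℝ))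
    (h : X → G → ℝ) (h1 : ∀ x, h x 1 = 0) :
    (∑ j : Bool, ∑ τ : A, (∑ β : B j, ∑ x, h x (c.gW j τ β x)) / (Fintype.card (B j) : ℝ)) =
      (Fintype.card A : ℝ) / d * ∑ x : X, ∑ j : Bool, (∑ β : B j, h x (c.iR j β)) / (Fintype.card (B j) : ℝ) := by
  have key : ∀ j : Bool, ∑ τ : A, (∑ β : B j, ∑ x, h x (c.gW j τ β x)) / (Fintype.card (B j) : ℝ) =
      (Fintype.card A : ℝ) / d * ∑ x : X, (∑ β : B j, h x (c.iR j β)) / (Fintype.card (B j) : ℝ) := by
    intro j
    rw [← Finset.sum_div, ← Finset.sum_div, ← mul_div_assoc]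
    congr 1
    have e1 : ∑ τ : A, ∑ β : B j, ∑ x, h x (c.gW j τ β x) =
        ∑ x, ∑ β : B j, ∑ τ : A, h x (c.gW j τ β x) := by
      calc ∑ τ : A, ∑ β : B j, ∑ x, h x (c.gW j τ β x)
          = ∑ τ : A, ∑ x, ∑ β : B j, h x (c.gW j τ β x) :=
            Finset.sum_congr rfl fun τ _ => Finset.sum_comm
        _ = ∑ x, ∑ τ : A, ∑ β : B j, h x (c.gW j τ β x) := Finset.sum_comm
        _ = _ := Finset.sum_congr rfl fun x _ => Finset.sum_comm
    rw [e1, Finset.mul_sum]
    refine Finset.sum_congr rfl fun x _ => ?_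
    rw [Finset.mul_sum]
    refine Finset.sum_congr rfl fun β _ => ?_
    have e2 : ∀ τ : A, h x (c.gW j τ β x) = if Q j (act τ x) = true then h x (c.iR j β) else 0 := by
      intro τ
      unfold gW
      by_cases hq : Q j (act τ x) = true
      · rw [if_pos hq, if_pos hq]
      · rw [if_neg hq, if_neg hq, h1]
    rw [Finset.sum_congr rfl fun τ _ => e2 τ, ← Finset.sum_filter, Finset.sum_const, nsmul_eq_mul]
    have e3 := hcnt j x
    congr 1
    rw [← e3]
    field_simp
  rw [Finset.sum_congr rfl fun j _ => key j, ← Finset.mul_sum]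
  congr 1
  exact Finset.sum_comm


end Core
end Pool.Agent.Helper889.Hn
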