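import Mathlib
import Pool.Agent.Helper889.Hn.Words

set_option autoImplicit false
set_option linter.unusedSectionVars false
set_option linter.unusedVariables false

open Filter Topology
open Classical
namespace Pool.Agent.Helper889.Hn


section hmdd
variable {M : Type} [Group M] [DecidableEq M]

/-- number of elements of `E` moved out of `E` by `h` -/
def hmdd (E : Finset M) (h : M) : ℕ := (E.filter (fun g => h * g ∉ E)).card

theorem hmdd_mul (E : Finset M) (h1 h2 : M) : hmdd E (h1 * h2) ≤ hmdd E h1 + hmdd E h2 := by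
  have hsub : E.filter (fun g => h1 * h2 * g ∉ E) ⊆
      ((E.filter (fun g => h1 * g ∉ E)).image (fun g => h2⁻¹ * g)) ∪
        (E.filter (fun g => h2 * g ∉ E)) := by
    intro g hg
    rw [Finset.mem_filter] at hg
    by_cases h : h2 * g ∈ E
    · apply Finset.mem_union_left
      rw [Finset.mem_image]
      exact ⟨h2 * g, Finset.mem_filter.mpr ⟨h, by rw [← mul_assoc]; exact hg.2⟩, by group⟩
    · exact Finset.mem_union_right _ (Finset.mem_filter.mpr ⟨hg.1, h⟩)
  calc hmdd E (h1 * h2) ≤ _ := Finset.card_le_card hsub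
    _ ≤ _ := Finset.card_union_le _ _
    _ ≤ _ := Nat.add_le_add_right Finset.card_image_le _

theorem hmdd_A (E : Finset M) (h : M) : ((E.image fun x => h * x) \ E).card = hmdd E h := by
  have h1 : (E.image fun x => h * x) \ E = (E.filter (fun g => h * g ∉ E)).image (fun x => h * x) := by
    ext g
    simp only [Finset.mem_sdiff, Finset.mem_image, Finset.mem_filter]
    constructor
    · rintro ⟨⟨x, hx, rfl⟩, h2⟩
      exact ⟨x, ⟨hx, h2⟩, rfl⟩
    · rintro ⟨x, ⟨hx, h2⟩, rfl⟩
      exact ⟨⟨x, hx, rfl⟩, h2⟩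
  rw [h1, Finset.card_image_of_injective _ (mul_right_injective h)]
  rfl

theorem hmdd_B (E : Finset M) (h : M) : (E \ (E.image fun x => h * x)).card = hmdd E h⁻¹ := by
  have h1 : E \ (E.image fun x => h * x) = E.filter (fun g => h⁻¹ * g ∉ E) := by
    ext g
    simp only [Finset.mem_sdiff, Finset.mem_image, Finset.mem_filter]
    constructor
    · rintro ⟨h1, h2⟩
      exact ⟨h1, fun h3 => h2 ⟨_, h3, by group⟩⟩
    · rintro ⟨h1, h2⟩
      refine ⟨h1, ?_⟩
      rintro ⟨x, hx, rfl⟩
      apply h2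
      rw [inv_mul_cancel_left]
      exact hx
  rw [h1]
  rfl

theorem hmdd_C (E : Finset M) (h : M) :
    ((E.image fun x => h * x) \ E).card = (E \ (E.image fun x => h * x)).card := by
  have h1 := Finset.card_sdiff_add_card (E.image fun x => h * x) E
  have h2 := Finset.card_sdiff_add_card E (E.image fun x => h * x)
  rw [Finset.union_comm] at h2
  have h3 : (E.image fun x => h * x).card = E.card :=
    Finset.card_image_of_injective _ (mul_right_injective h)
  omega

theorem hmdd_inv (E : Finset M) (h : M) : hmdd E h⁻¹ = hmdd E h :=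
  (hmdd_B E h).symm.trans ((hmdd_C E h).symm.trans (hmdd_A E h))

theorem hmdd_symm (E : Finset M) (h : M) :
    (symmDiff (E.image fun x => h * x) E).card = 2 * hmdd E h := by
  have h0 : symmDiff (E.image fun x => h * x) E =
      ((E.image fun x => h * x) \ E) ∪ (E \ (E.image fun x => h * x)) := rfl
  rw [h0, Finset.card_union_of_disjoint disjoint_sdiff_sdiff, ← hmdd_C, hmdd_A]
  ring

end hmdd

/-- TARGET -/
theorem hanoi_mean (k : ℕ)
    (mean_of_folner : ∀ {M : Type} [Group M] [DecidableEq M] (E : ℕ → Finset M) (hE : ∀ n, (E n).Nonempty)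
      (h : ∀ g : M, Tendsto (fun n => ((symmDiff ((E n).image fun x => g * x) (E n)).card : ℝ) / (E n).card) atTop (𝓝 0)),
      ∃ m : Set M → ℝ, (∀ A, 0 ≤ m A) ∧ m Set.univ = 1 ∧ (∀ A B, Disjoint A B → m (A ∪ B) = m A + m B) ∧
        ∀ (g : M) A, m ((fun x => g * x) '' A) = m A)
    (hF : ∀ ε : ℝ, 0 < ε →
      ∃ F : Finset ((ℕ → Fin k) → (ℕ → Fin k)),
        F.Nonempty ∧
        (∀ f ∈ F, ∀ S : Set ((ℕ → Fin k) → (ℕ → Fin k)), id ∈ S →
          (∀ i j : Fin k, ∀ g ∈ S,
            (fun (x : ℕ → Fin k) (t : ℕ) =>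
              if ∀ s < t, x s ≠ i ∧ x s ≠ j then Equiv.swap i j (x t) else x t) ∘ g ∈ S) →
          f ∈ S) ∧
        ∀ i j : Fin k, i ≠ j →
          ((F.filter (fun f =>
              (fun (x : ℕ → Fin k) (t : ℕ) =>
                if ∀ s < t, x s ≠ i ∧ x s ≠ j then Equiv.swap i j (x t) else x t) ∘ f ∉ F)).card : ℝ)
            < ε * F.card) :
    ∃ m : Set (HK k) → ℝ, (∀ A, 0 ≤ m A) ∧ m Set.univ = 1 ∧ (∀ A B, Disjoint A B → m (A ∪ B) = m A + m B) ∧
      ∀ (g : HK k) A, m ((fun x => g * x) '' A) = m A := by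
  -- the frozen map as a function of the generator
  have hfun : ∀ i j : Fin k, (fun (x : ℕ → Fin k) (t : ℕ) =>
      if ∀ s < t, x s ≠ i ∧ x s ≠ j then Equiv.swap i j (x t) else x t) = ⇑(han i j) := by
    intro i j
    funext x t
    show _ = RF (hanT i j) (Equiv.swap i j) x t
    have hiff : (∀ s < t, hanT i j (x s) = false) ↔ ∀ s < t, x s ≠ i ∧ x s ≠ j := by
      simp only [hanT, Bool.or_eq_false_iff, decide_eq_false_iff_not, ne_eq]
    unfold RF
    by_cases h : ∀ s < t, x s ≠ i ∧ x s ≠ j
    · rw [if_pos h, if_pos (hiff.mpr h)]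
    · rw [if_neg h, if_neg (fun h' => h (hiff.mp h'))]
  have hgen : ∀ i j : Fin k, han i j ∈ HK k := fun i j => Subgroup.subset_closure ⟨(i, j), rfl⟩
  have hii : ∀ i : Fin k, han i i = 1 := by
    intro i
    have h1 : (⟨Equiv.swap i i, hanT_fx i i⟩ : Fx (hanT i i)) = 1 := by
      apply Subtype.ext
      exact Equiv.swap_self i
    unfold han
    rw [h1, map_one]
  let φ : HK k → ((ℕ → Fin k) → (ℕ → Fin k)) := fun g => ⇑(g : Equiv.Perm (ℕ → Fin k))
  have hφ : Function.Injective φ := fun a b h => Subtype.ext (DFunLike.coe_injective h)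
  have hφm : ∀ (i j : Fin k) (g : HK k), φ (⟨han i j, hgen i j⟩ * g) = ⇑(han i j) ∘ φ g := by
    intro i j g; rfl
  -- the sets
  have key : ∀ n : ℕ, ∃ E : Finset (HK k), E.Nonempty ∧
      ∀ i j : Fin k, i ≠ j → (hmdd E ⟨han i j, hgen i j⟩ : ℝ) ≤ (1 / ((n : ℝ) + 1)) * E.card := by
    intro n
    obtain ⟨F, hFne, hFS, hFc⟩ := hF (1 / ((n : ℝ) + 1)) (by positivity)
    have hr : ∀ f ∈ F, ∃ g : HK k, φ g = f := by
      intro f hf
      have := hFS f hf (Set.range φ) ⟨1, rfl⟩ (by
        intro i j g hg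
        obtain ⟨g', rfl⟩ := hg
        rw [hfun i j]
        exact ⟨⟨han i j, hgen i j⟩ * g', hφm i j g'⟩)
      exact this
    have hinj : Set.InjOn φ (φ ⁻¹' (F : Set ((ℕ → Fin k) → (ℕ → Fin k)))) := hφ.injOn
    let E : Finset (HK k) := F.preimage φ hinj
    have hEmem : ∀ g, g ∈ E ↔ φ g ∈ F := fun g => Finset.mem_preimage
    have hEim : E.image φ = F := by
      ext f
      rw [Finset.mem_image]
      constructor
      · rintro ⟨g, hg, rfl⟩
        exact (hEmem g).mp hg
      · intro hf
        obtain ⟨g, rfl⟩ := hr f hf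
        exact ⟨g, (hEmem g).mpr hf, rfl⟩
    have hEc : E.card = F.card := by
      rw [← hEim, Finset.card_image_of_injective _ hφ]
    refine ⟨E, ?_, ?_⟩
    · rw [← Finset.card_pos, hEc, Finset.card_pos]; exact hFne
    · intro i j hij
      have h1 := hFc i j hij
      rw [hfun i j] at h1
      have h2 : hmdd E ⟨han i j, hgen i j⟩ ≤ (F.filter (fun f => ⇑(han i j) ∘ f ∉ F)).card := by
        unfold hmdd
        rw [← Finset.card_image_of_injective _ hφ]
        apply Finset.card_le_card
        intro f hf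
        rw [Finset.mem_image] at hf
        obtain ⟨g, hg, rfl⟩ := hf
        rw [Finset.mem_filter] at hg ⊢
        refine ⟨(hEmem g).mp hg.1, ?_⟩
        intro h3
        apply hg.2
        rw [hEmem, hφm]
        exact h3
      rw [hEc]
      exact le_trans (by exact_mod_cast h2) h1.le
  choose E hEne hEg using key
  have hlim : ∀ g : HK k, Tendsto (fun n => (hmdd (E n) g : ℝ) / (E n).card) atTop (𝓝 0) := by
    rintro ⟨g, hg⟩
    induction hg using Subgroup.closure_induction with
    | mem x hx =>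
      obtain ⟨⟨i, j⟩, rfl⟩ := hx
      by_cases hij : i = j
      · subst hij
        have : ∀ n, hmdd (E n) ⟨han i i, hgen i i⟩ = 0 := by
          intro n
          unfold hmdd
          rw [Finset.card_eq_zero, Finset.filter_eq_empty_iff]
          intro g hg h
          apply h
          have h1 : (⟨han i i, hgen i i⟩ : HK k) = 1 := Subtype.ext (hii i)
          rw [h1, one_mul]
          exact hg
        have h2 : (fun n => (hmdd (E n) ⟨han i i, hgen i i⟩ : ℝ) / (E n).card) = fun _ => (0:ℝ) := by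
          funext n
          rw [this n]; simp
        exact h2 ▸ tendsto_const_nhds
      · have h1 : Tendsto (fun n : ℕ => 1 / ((n : ℝ) + 1)) atTop (𝓝 0) :=
          tendsto_one_div_add_atTop_nhds_zero_nat
        refine squeeze_zero (fun n => by positivity) (fun n => ?_) h1
        have hp : (0:ℝ) < (E n).card := by exact_mod_cast Finset.card_pos.mpr (hEne n)
        rw [div_le_iff₀ hp]
        exact hEg n i j hij
    | one =>
      have : ∀ n, hmdd (E n) (1 : HK k) = 0 := by
        intro n
        unfold hmdd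
        rw [Finset.card_eq_zero, Finset.filter_eq_empty_iff]
        intro g hg h
        apply h
        rw [one_mul]
        exact hg
      have h2 : (fun n => (hmdd (E n) (1 : HK k) : ℝ) / (E n).card) = fun _ => (0:ℝ) := by
        funext n
        rw [this n]; simp
      exact h2 ▸ tendsto_const_nhds
    | mul x y hx hy ihx ihy =>
      have h1 := ihx.add ihy
      rw [add_zero] at h1
      refine squeeze_zero (fun n => by positivity) (fun n => ?_) h1
      rw [← add_div]
      have := hmdd_mul (E n) (⟨x, hx⟩ : HK k) ⟨y, hy⟩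
      have h3 : (hmdd (E n) ((⟨x, hx⟩ : HK k) * ⟨y, hy⟩) : ℝ) ≤
        hmdd (E n) (⟨x, hx⟩ : HK k) + hmdd (E n) (⟨y, hy⟩ : HK k) := by exact_mod_cast this
      exact div_le_div_of_nonneg_right h3 (Nat.cast_nonneg _)
    | inv x hx ihx =>
      have : ∀ n, hmdd (E n) (⟨x, hx⟩ : HK k)⁻¹ = hmdd (E n) (⟨x, hx⟩ : HK k) := fun n => hmdd_inv _ _
      have h2 : (fun n => (hmdd (E n) ((⟨x, hx⟩ : HK k)⁻¹) : ℝ) / (E n).card) =
          fun n => (hmdd (E n) (⟨x, hx⟩ : HK k) : ℝ) / (E n).card := by
        funext n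
        rw [this n]
      exact h2 ▸ ihx
  refine mean_of_folner E hEne ?_
  intro g
  have h1 := (hlim g).const_mul 2
  rw [mul_zero] at h1
  refine h1.congr ?_
  intro n
  rw [hmdd_symm]
  push_cast
  ring


end Pool.Agent.Helper889.Hn
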