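import Mathlib
import Pool.Agent.Helper889.Hn.Words

set_option autoImplicit false
set_option linter.unusedSectionVars false
set_option linter.unusedVariables false

namespace Pool.Agent.Helper889.Hn

/-- TARGET (check each letter case with RF_cns and dbl_cns; strong induction on the position) -/
theorem gadget {Z : Type} [DecidableEq Z] (T : Z → Bool) (i j c : Z) (hij : i ≠ j) (hic : i ≠ c) (hjc : j ≠ c)
    (hi : T i = true) (hj : T j = true) (hc : T c = true) (ω : ℕ → Z) :
    RF (fun z => T z && decide (z ≠ c)) (Equiv.swap i j)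
      (RF (fun z => T z && decide (z ≠ i)) (Equiv.swap j c)
        (RF (fun z => T z && decide (z ≠ c)) (Equiv.swap i j)
          (RF (fun z => T z && decide (z ≠ j)) (Equiv.swap i c)
            (RF (fun z => T z && decide (z ≠ c)) (Equiv.swap i j) (dbl ω))))) =
      dbl (RF T (Equiv.swap i j) ω) := by
  obtain ⟨T1, hT1⟩ : ∃ T1 : Z → Bool, T1 = fun z => T z && decide (z ≠ c) := ⟨_, rfl⟩
  obtain ⟨T2, hT2⟩ : ∃ T2 : Z → Bool, T2 = fun z => T z && decide (z ≠ j) := ⟨_, rfl⟩
  obtain ⟨T3, hT3⟩ : ∃ T3 : Z → Bool, T3 = fun z => T z && decide (z ≠ i) := ⟨_, rfl⟩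
  rw [← hT1, ← hT2, ← hT3]
  have a1i : T1 i = true := by rw [hT1]; simp [hi, hic]
  have a1j : T1 j = true := by rw [hT1]; simp [hj, hjc]
  have a1c : T1 c = false := by rw [hT1]; simp
  have a2i : T2 i = true := by rw [hT2]; simp [hi, hij]
  have a2j : T2 j = false := by rw [hT2]; simp
  have a2c : T2 c = true := by rw [hT2]; simp [hc, Ne.symm hjc]
  have a3i : T3 i = false := by rw [hT3]; simp
  have a3j : T3 j = true := by rw [hT3]; simp [hj, Ne.symm hij]
  have a3c : T3 c = true := by rw [hT3]; simp [hc, Ne.symm hic]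
  have b1 : ∀ z, T z = false → T1 z = false := by intro z hz; rw [hT1]; simp [hz]
  have b2 : ∀ z, T z = false → T2 z = false := by intro z hz; rw [hT2]; simp [hz]
  have b3 : ∀ z, T z = false → T3 z = false := by intro z hz; rw [hT3]; simp [hz]
  have d1 : ∀ z, T z = true → z ≠ c → T1 z = true := by intro z hz h; rw [hT1]; simp [hz, h]
  have d2 : ∀ z, T z = true → z ≠ j → T2 z = true := by intro z hz h; rw [hT2]; simp [hz, h]
  have d3 : ∀ z, T z = true → z ≠ i → T3 z = true := by intro z hz h; rw [hT3]; simp [hz, h]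
  have H1 : ∀ z, T1 z = false → Equiv.swap i j z = z := by
    intro z hz
    apply Equiv.swap_apply_of_ne_of_ne
    · rintro rfl; rw [a1i] at hz; exact Bool.noConfusion hz
    · rintro rfl; rw [a1j] at hz; exact Bool.noConfusion hz
  have H2 : ∀ z, T2 z = false → Equiv.swap i c z = z := by
    intro z hz
    apply Equiv.swap_apply_of_ne_of_ne
    · rintro rfl; rw [a2i] at hz; exact Bool.noConfusion hz
    · rintro rfl; rw [a2c] at hz; exact Bool.noConfusion hz
  have H3 : ∀ z, T3 z = false → Equiv.swap j c z = z := by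
    intro z hz
    apply Equiv.swap_apply_of_ne_of_ne
    · rintro rfl; rw [a3j] at hz; exact Bool.noConfusion hz
    · rintro rfl; rw [a3c] at hz; exact Bool.noConfusion hz
  have H0 : ∀ z, T z = false → Equiv.swap i j z = z := fun z hz => H1 z (b1 z hz)
  -- branches
  have p1 : ∀ x u, T1 x = true → RF T1 (Equiv.swap i j) (cns x u) = cns (Equiv.swap i j x) u := by
    intro x u h; rw [RF_cns _ _ H1, if_pos h]
  have n1 : ∀ x u, T1 x = false → RF T1 (Equiv.swap i j) (cns x u) = cns x (RF T1 (Equiv.swap i j) u) := by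
    intro x u h; rw [RF_cns _ _ H1, if_neg (by rw [h]; exact Bool.noConfusion)]
  have p2 : ∀ x u, T2 x = true → RF T2 (Equiv.swap i c) (cns x u) = cns (Equiv.swap i c x) u := by
    intro x u h; rw [RF_cns _ _ H2, if_pos h]
  have n2 : ∀ x u, T2 x = false → RF T2 (Equiv.swap i c) (cns x u) = cns x (RF T2 (Equiv.swap i c) u) := by
    intro x u h; rw [RF_cns _ _ H2, if_neg (by rw [h]; exact Bool.noConfusion)]
  have p3 : ∀ x u, T3 x = true → RF T3 (Equiv.swap j c) (cns x u) = cns (Equiv.swap j c x) u := by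
    intro x u h; rw [RF_cns _ _ H3, if_pos h]
  have n3 : ∀ x u, T3 x = false → RF T3 (Equiv.swap j c) (cns x u) = cns x (RF T3 (Equiv.swap j c) u) := by
    intro x u h; rw [RF_cns _ _ H3, if_neg (by rw [h]; exact Bool.noConfusion)]
  have p0 : ∀ x u, T x = true → RF T (Equiv.swap i j) (cns x u) = cns (Equiv.swap i j x) u := by
    intro x u h; rw [RF_cns _ _ H0, if_pos h]
  have n0 : ∀ x u, T x = false → RF T (Equiv.swap i j) (cns x u) = cns x (RF T (Equiv.swap i j) u) := by
    intro x u h; rw [RF_cns _ _ H0, if_neg (by rw [h]; exact Bool.noConfusion)]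
  have inv1 : ∀ u, RF T1 (Equiv.swap i j) (RF T1 (Equiv.swap i j) u) = u := by
    intro u
    rw [RF_mul T1 _ _ H1 H1, Equiv.swap_mul_self, RF_one]
  suffices hs : ∀ t : ℕ, ∀ ω : ℕ → Z, RF T1 (Equiv.swap i j)
      (RF T3 (Equiv.swap j c)
        (RF T1 (Equiv.swap i j)
          (RF T2 (Equiv.swap i c)
            (RF T1 (Equiv.swap i j) (dbl ω))))) t = dbl (RF T (Equiv.swap i j) ω) t from
    funext (fun t => hs t ω)
  intro t
  induction t using Nat.strong_induction_on with
  | _ t ih =>
    intro ω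
    rw [← cns_eta ω]
    generalize ω 0 = x
    generalize (fun n => ω (n + 1)) = ω'
    rw [dbl_cns]
    cases hx : T x with
    | false =>
      have h1 := b1 x hx
      have h2 := b2 x hx
      have h3 := b3 x hx
      rw [n1 _ _ h1, n1 _ _ h1, n2 _ _ h2, n2 _ _ h2, n1 _ _ h1, n1 _ _ h1, n3 _ _ h3, n3 _ _ h3,
        n1 _ _ h1, n1 _ _ h1, n0 _ _ hx, dbl_cns]
      match t, ih with
      | 0, _ => rfl
      | 1, _ => rfl
      | t + 2, ih => exact ih t (by omega) ω'
    | true =>
      by_cases hxi : x = i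
      · subst hxi
        rw [p1 _ _ a1i, Equiv.swap_apply_left, n2 _ _ a2j, p2 _ _ a2i, Equiv.swap_apply_left,
          p1 _ _ a1j, Equiv.swap_apply_right, n3 _ _ a3i, p3 _ _ a3c, Equiv.swap_apply_right,
          p1 _ _ a1i, Equiv.swap_apply_left, p0 _ _ hx, Equiv.swap_apply_left, dbl_cns]
      · by_cases hxj : x = j
        · subst hxj
          rw [p1 _ _ a1j, Equiv.swap_apply_right, p2 _ _ a2i, Equiv.swap_apply_left,
            n1 _ _ a1c, p1 _ _ a1j, Equiv.swap_apply_right, p3 _ _ a3c, Equiv.swap_apply_right,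
            p1 _ _ a1j, Equiv.swap_apply_right, p0 _ _ hx, Equiv.swap_apply_right, dbl_cns]
        · by_cases hxc : x = c
          · subst hxc
            have hsw : Equiv.swap i j x = x := H1 x a1c
            rw [n1 _ _ a1c, n1 _ _ a1c, p2 _ _ a2c, Equiv.swap_apply_right, p1 _ _ a1i,
              Equiv.swap_apply_left, p3 _ _ a3j, Equiv.swap_apply_left, n1 _ _ a1c, n1 _ _ a1c,
              inv1, p0 _ _ hx, hsw, dbl_cns]
          · have s1 : Equiv.swap i j x = x := Equiv.swap_apply_of_ne_of_ne hxi hxj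
            have s2 : Equiv.swap i c x = x := Equiv.swap_apply_of_ne_of_ne hxi hxc
            have s3 : Equiv.swap j c x = x := Equiv.swap_apply_of_ne_of_ne hxj hxc
            rw [p1 _ _ (d1 x hx hxc), s1, p2 _ _ (d2 x hx hxj), s2, p1 _ _ (d1 x hx hxc), s1,
              p3 _ _ (d3 x hx hxi), s3, p1 _ _ (d1 x hx hxc), s1, p0 _ _ hx, s1, dbl_cns]

end Pool.Agent.Helper889.Hn
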