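import Mathlib
import Pool.Agent.Helper889.Hn.Defs

set_option autoImplicit false
set_option linter.unusedSectionVars false
set_option linter.unusedVariables false

namespace Pool.Agent.Helper889.Hn
open Pool.Agent.Helper889.Na
namespace Core
variable {X A : Type} [Fintype X] [DecidableEq X] [Group A] [Fintype A] {act : A →* Equiv.Perm X}
  {B : Bool → Subgroup A} [∀ j, Fintype (B j)] {Q : Bool → X → Bool} {G : Type} [Group G]
  (c : Core act B Q G)

theorem P_gW (j : Bool) (τ : A) (β : B j) :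
    c.P (c.gW j τ β) = (c.iA τ)⁻¹ * (c.iA (β : A))⁻¹ * c.iR j β * c.iA τ := by
  have h := c.conj τ⁻¹ (fun x => if Q j x = true then c.iR j β else 1)
  have hd : c.P (fun x => if Q j x = true then c.iR j β else 1) =
      (c.iA (β : A))⁻¹ * c.iR j β := by
    rw [eq_inv_mul_iff_mul_eq]
    exact (c.dirR j β).symm
  rw [hd, map_inv, inv_inv] at h
  have e : c.gW j τ β = (fun x => if Q j (act (τ⁻¹)⁻¹ x) = true then c.iR j β else 1) := by
    rw [inv_inv]; rfl
  rw [e, ← h]
  group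

theorem closure_gW : Subgroup.closure (Set.range fun p : (Σ j : Bool, A × B j) => c.gW p.1 p.2.1 p.2.2) = ⊤ := by
  set K : Subgroup (X → G) :=
    Subgroup.closure (Set.range fun p : (Σ j : Bool, A × B j) => c.gW p.1 p.2.1 p.2.2) with hK
  have hstab : ∀ (s : A) (w : X → G), w ∈ K → (fun x : X => w (act s x)) ∈ K := by
    intro s w hw
    induction hw using Subgroup.closure_induction with
    | mem x hx =>
      obtain ⟨⟨j, τ, β⟩, rfl⟩ := hx
      apply Subgroup.subset_closure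
      refine ⟨⟨j, τ * s, β⟩, ?_⟩
      funext x
      simp only [gW, map_mul, Equiv.Perm.mul_apply]
    | one => exact K.one_mem
    | mul x y hx hy ihx ihy => exact K.mul_mem ihx ihy
    | inv x hx ih => exact K.inv_mem ih
  have hPc : ∀ (τ : A) (w : X → G), c.P w * c.iA τ = c.iA τ * c.P (fun x => w (act τ x)) := by
    intro τ w
    have h := c.conj τ⁻¹ w
    rw [map_inv, inv_inv, inv_inv] at h
    rw [← h]
    group
  let H : Subgroup G :=
    { carrier := {g | ∃ (σ : A) (w : X → G), w ∈ K ∧ g = c.iA σ * c.P w}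
      mul_mem' := by
        rintro _ _ ⟨σ, w, hw, rfl⟩ ⟨τ, v, hv, rfl⟩
        refine ⟨σ * τ, (fun x => w (act τ x)) * v, K.mul_mem (hstab τ w hw) hv, ?_⟩
        rw [map_mul, map_mul]
        calc c.iA σ * c.P w * (c.iA τ * c.P v) = c.iA σ * (c.P w * c.iA τ) * c.P v := by group
          _ = _ := by rw [hPc]; group
      one_mem' := ⟨1, 1, K.one_mem, by simp⟩
      inv_mem' := by
        rintro _ ⟨σ, w, hw, rfl⟩
        refine ⟨σ⁻¹, fun x => w⁻¹ (act σ⁻¹ x), hstab σ⁻¹ w⁻¹ (K.inv_mem hw), ?_⟩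
        rw [← hPc, mul_inv_rev, map_inv, map_inv] }
  have hHtop : H = ⊤ := by
    rw [eq_top_iff, ← c.gen, Subgroup.closure_le]
    rintro g (⟨a, rfl⟩ | hg)
    · exact ⟨a, 1, K.one_mem, by simp⟩
    · obtain ⟨j, β, rfl⟩ := Set.mem_iUnion.1 hg
      refine ⟨(β : A), c.gW j 1 β, Subgroup.subset_closure ⟨⟨j, 1, β⟩, rfl⟩, ?_⟩
      rw [P_gW]
      simp
  rw [eq_top_iff]
  intro w _
  have hw : c.P w ∈ H := by rw [hHtop]; trivial
  obtain ⟨σ, v, hv, hwv⟩ := hw
  have h1 : c.iA σ * c.P (v * w⁻¹) = 1 := by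
    rw [map_mul, map_inv, ← mul_assoc, ← hwv, mul_inv_cancel]
  have hσ := c.dec_inj σ _ h1
  rw [hσ, map_one, one_mul] at hwv
  rw [c.P_inj hwv]
  exact hv

end Core
end Pool.Agent.Helper889.Hn
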