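import Mathlib
import Pool.Agent.Helper889.Hn.Defs

set_option autoImplicit false
set_option linter.unusedSectionVars false
set_option linter.unusedVariables false

namespace Pool.Agent.Helper889.Hn
open Pool.Agent.Helper889.Na
namespace Core
variable {X A : Type} [Fintype X] [DecidableEq X] [Group A] [Fintype A] {act : A →* Equiv.Perm X}
  {B : Bool → Subgroup A} [∀ j, Fintype (B j)] {Q : Bool → X → Bool} {G : Type} [Group G]
  (c : Core act B Q G)

theorem ii_ip_sum_left {W : Type} [Group W] {κ : Type} (s : Finset κ) (f : κ → W →₀ ℝ)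
    (g : W →₀ ℝ) : ip (∑ k ∈ s, f k) g = ∑ k ∈ s, ip (f k) g := by
  classical
  induction s using Finset.induction_on with
  | empty =>
    rw [Finset.sum_empty, Finset.sum_empty]
    unfold ip
    exact Finsupp.sum_zero_index
  | insert k s hk ih => rw [Finset.sum_insert hk, Finset.sum_insert hk, ip_add_left, ih]

theorem ii_ip_sum_right {W : Type} [Group W] {κ : Type} (s : Finset κ) (f : κ → W →₀ ℝ)
    (g : W →₀ ℝ) : ip g (∑ k ∈ s, f k) = ∑ k ∈ s, ip g (f k) := by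
  rw [ip_comm, ii_ip_sum_left]
  exact Finset.sum_congr rfl fun k _ => ip_comm _ _

theorem ii_N_sub_le {W : Type} [Group W] (f g : W →₀ ℝ) : N (f - g) ≤ 2 * N f + 2 * N g := by
  have h1 := N_nonneg (f + g)
  rw [N_add] at h1
  rw [N_sub]
  linarith

theorem ii_inj (σ : A) : Function.Injective (fun w : X → G => c.iA σ * c.P w) := by
  intro w w' h
  exact c.P_inj (mul_left_cancel h)

/-- restriction to a coset -/
noncomputable def cm (σ : A) (F : G →₀ ℝ) : (X → G) →₀ ℝ :=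
  Finsupp.comapDomain (fun w : X → G => c.iA σ * c.P w) F (c.ii_inj σ).injOn

theorem cm_apply (σ : A) (F : G →₀ ℝ) (w : X → G) : c.cm σ F w = F (c.iA σ * c.P w) := by
  unfold cm
  exact Finsupp.comapDomain_apply _ _ _ _

theorem cm_sub (σ : A) (F F' : G →₀ ℝ) : c.cm σ (F - F') = c.cm σ F - c.cm σ F' := by
  ext w
  rw [Finsupp.sub_apply, cm_apply, cm_apply, cm_apply, Finsupp.sub_apply]

theorem N_dec (hdec : ∀ g : G, ∃! p : A × (X → G), g = c.iA p.1 * c.P p.2) (F : G →₀ ℝ) :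
    N F = ∑ σ : A, N (c.cm σ F) := by
  classical
  set T : Finset (X → G) := Finset.univ.biUnion fun σ : A => (c.cm σ F).support with hT
  have hinj : Function.Injective (fun p : A × (X → G) => c.iA p.1 * c.P p.2) := by
    intro p q h
    obtain ⟨r, _, hr⟩ := hdec (c.iA p.1 * c.P p.2)
    rw [hr p rfl, hr q h]
  have hs : F.support ⊆ ((Finset.univ : Finset A) ×ˢ T).image
      (fun p : A × (X → G) => c.iA p.1 * c.P p.2) := by
    intro g hg
    obtain ⟨p, hp, _⟩ := hdec g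
    refine Finset.mem_image.mpr ⟨p, Finset.mem_product.mpr ⟨Finset.mem_univ _, ?_⟩, hp.symm⟩
    rw [hT, Finset.mem_biUnion]
    refine ⟨p.1, Finset.mem_univ _, ?_⟩
    rw [Finsupp.mem_support_iff, cm_apply, ← hp]
    exact Finsupp.mem_support_iff.mp hg
  rw [N_eq_sum F _ hs, Finset.sum_image (fun p _ q _ h => hinj h), Finset.sum_product]
  refine Finset.sum_congr rfl fun σ _ => ?_
  rw [N_eq_sum (c.cm σ F) T (Finset.subset_biUnion_of_mem (fun σ : A => (c.cm σ F).support)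
    (Finset.mem_univ σ))]
  refine Finset.sum_congr rfl fun w _ => ?_
  rw [cm_apply]

theorem cm_tr_A (τ σ : A) (F : G →₀ ℝ) : c.cm σ (tr (c.iA τ) F) = c.cm (τ⁻¹ * σ) F := by
  ext w
  rw [cm_apply, tr_apply, cm_apply, ← mul_assoc, ← map_inv, ← map_mul]

theorem cm_tr_R (hPgW : ∀ (j : Bool) (τ : A) (β : B j),
      c.P (c.gW j τ β) = (c.iA τ)⁻¹ * (c.iA (β : A))⁻¹ * c.iR j β * c.iA τ)
    (j : Bool) (τ : A) (β : B j) (F : G →₀ ℝ) :
    c.cm ((β : A) * τ) (tr (c.iR j β) F) = tr (c.gW j τ β) (c.cm τ F) := by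
  ext w
  rw [cm_apply, tr_apply, tr_apply, cm_apply, map_mul c.P, map_inv c.P, hPgW, map_mul c.iA]
  congr 1
  group

/-- passage from `G` to its first level stabiliser `G^X` -/
theorem ineqI (hdec : ∀ g : G, ∃! p : A × (X → G), g = c.iA p.1 * c.P p.2)
    (hPgW : ∀ (j : Bool) (τ : A) (β : B j), c.P (c.gW j τ β) = (c.iA τ)⁻¹ * (c.iA (β : A))⁻¹ * c.iR j β * c.iA τ)
    (R : ℕ) (hsec : ∀ {σ : A} {w : X → G}, c.iA σ * c.P w ∈ c.ball R → ∀ x : X, w x ∈ c.ball R)
    (ψ : G →₀ ℝ) (hψ : ∀ g, ψ g ≠ 0 → g ∈ c.ball R) :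
    ∃ φ : (X → G) →₀ ℝ, (∀ w, φ w ≠ 0 → ∀ x, w x ∈ c.ball R) ∧ c.EW φ ≤ 2 * c.ED ψ ∧
      N ψ - c.ED ψ / 2 ≤ (Fintype.card A : ℝ) * N φ := by
  classical
  set n : ℝ := (Fintype.card A : ℝ) with hn
  have hn0 : 0 < n := by rw [hn]; exact_mod_cast Fintype.card_pos
  set u : A → (X → G) →₀ ℝ := fun σ => c.cm σ ψ with hu
  set φ : (X → G) →₀ ℝ := n⁻¹ • ∑ σ : A, u σ with hφ
  set δ : A → (X → G) →₀ ℝ := fun σ => u σ - φ with hδ
  set Δ : ℝ := ∑ σ : A, N (δ σ) with hΔ
  have hΔ0 : 0 ≤ Δ := Finset.sum_nonneg fun σ _ => N_nonneg _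
  have hsum : ∑ σ : A, δ σ = 0 := by
    simp only [hδ]
    rw [Finset.sum_sub_distrib, Finset.sum_const, Finset.card_univ, ← Nat.cast_smul_eq_nsmul ℝ,
      ← hn, hφ, smul_smul, mul_inv_cancel₀ hn0.ne', one_smul, sub_self]
  have hNψ : N ψ = n * N φ + Δ := by
    rw [c.N_dec hdec ψ]
    have e : ∀ σ : A, N (c.cm σ ψ) = N φ + 2 * ip φ (δ σ) + N (δ σ) := by
      intro σ
      rw [← N_add]
      congr 1
      simp only [hδ, hu]
      abel
    rw [Finset.sum_congr rfl (fun σ _ => e σ), Finset.sum_add_distrib, Finset.sum_add_distrib,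
      ← Finset.mul_sum, ← ii_ip_sum_right, hsum, Finset.sum_const, nsmul_eq_mul, Finset.card_univ]
    have e2 : ip φ 0 = 0 := by
      have := ip_smul_right (0 : ℝ) φ φ
      simpa using this
    rw [e2, mul_zero, add_zero]
  have hfirst : (∑ τ : A, N (tr (c.iA τ) ψ - ψ)) / n = 2 * Δ := by
    have e1 : ∀ τ : A, N (tr (c.iA τ) ψ - ψ) = ∑ σ : A, N (u (τ⁻¹ * σ) - u σ) := by
      intro τ
      rw [c.N_dec hdec]
      refine Finset.sum_congr rfl fun σ _ => ?_
      rw [cm_sub, cm_tr_A]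
    rw [Finset.sum_congr rfl (fun τ _ => e1 τ), Finset.sum_comm]
    have e2 : ∀ σ : A, ∑ τ : A, N (u (τ⁻¹ * σ) - u σ) = ∑ ρ : A, N (δ ρ - δ σ) := by
      intro σ
      rw [← Equiv.sum_comp ((Equiv.inv A).trans (Equiv.mulRight σ)) (fun ρ => N (δ ρ - δ σ))]
      refine Finset.sum_congr rfl fun τ _ => ?_
      congr 1
      simp only [hδ, Equiv.trans_apply, Equiv.inv_apply, Equiv.coe_mulRight]
      abel
    have e3 : ∀ σ : A, ∑ ρ : A, N (δ ρ - δ σ) = Δ + n * N (δ σ) := by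
      intro σ
      rw [Finset.sum_congr rfl (fun ρ _ => N_sub (δ ρ) (δ σ)), Finset.sum_add_distrib,
        Finset.sum_sub_distrib, ← Finset.mul_sum, ← ii_ip_sum_left, hsum, Finset.sum_const,
        nsmul_eq_mul, Finset.card_univ]
      have e2 : ip 0 (δ σ) = 0 := by
        have := ip_smul_left (0 : ℝ) (δ σ) (δ σ)
        simpa using this
      rw [e2, mul_zero, sub_zero]
    rw [Finset.sum_congr rfl (fun σ _ => e2 σ), Finset.sum_congr rfl (fun σ _ => e3 σ),
      Finset.sum_add_distrib, Finset.sum_const, nsmul_eq_mul, ← Finset.mul_sum, Finset.card_univ,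
      ← hn, ← hΔ]
    field_simp
    ring
  set RR : Bool → ℝ := fun j =>
    (∑ β : B j, N (tr (c.iR j β) ψ - ψ)) / (Fintype.card (B j) : ℝ) with hRR
  have hRR0 : 0 ≤ ∑ j : Bool, RR j := Finset.sum_nonneg fun j _ =>
    div_nonneg (Finset.sum_nonneg fun b _ => N_nonneg _) (Nat.cast_nonneg _)
  have hED : c.ED ψ = 8 * Δ + ∑ j : Bool, RR j := by
    unfold ED
    rw [← hn, hfirst]
    ring
  have hR : ∀ (j : Bool) (β : B j), N (tr (c.iR j β) ψ - ψ) =
      ∑ τ : A, N (tr (c.gW j τ β) (u τ) - u ((β : A) * τ)) := by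
    intro j β
    rw [c.N_dec hdec, ← Equiv.sum_comp (Equiv.mulLeft (β : A))]
    refine Finset.sum_congr rfl fun τ _ => ?_
    rw [Equiv.coe_mulLeft, cm_sub, c.cm_tr_R hPgW]
  have hstep : ∀ (j : Bool) (β : B j), ∑ τ : A, N (tr (c.gW j τ β) φ - φ) ≤
      2 * N (tr (c.iR j β) ψ - ψ) + 8 * Δ := by
    intro j β
    have h1 : ∀ τ : A, N (tr (c.gW j τ β) φ - φ) ≤
        2 * N (tr (c.gW j τ β) (u τ) - u ((β : A) * τ)) + (4 * N (δ τ) + 4 * N (δ ((β : A) * τ))) := by
      intro τ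
      have e : tr (c.gW j τ β) φ - φ = (tr (c.gW j τ β) (u τ) - u ((β : A) * τ)) -
          (tr (c.gW j τ β) (δ τ) - δ ((β : A) * τ)) := by
        simp only [hδ]
        rw [tr_sub]
        abel
      rw [e]
      have h2 := ii_N_sub_le (tr (c.gW j τ β) (u τ) - u ((β : A) * τ))
        (tr (c.gW j τ β) (δ τ) - δ ((β : A) * τ))
      have h3 := ii_N_sub_le (tr (c.gW j τ β) (δ τ)) (δ ((β : A) * τ))
      rw [N_tr] at h3
      linarith
    have h4 := Finset.sum_le_sum (fun τ (_ : τ ∈ (Finset.univ : Finset A)) => h1 τ)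
    rw [Finset.sum_add_distrib, Finset.sum_add_distrib, ← Finset.mul_sum, ← Finset.mul_sum,
      ← Finset.mul_sum, ← hR] at h4
    have h5 : ∑ τ : A, N (δ ((β : A) * τ)) = Δ := by
      rw [hΔ]
      exact Equiv.sum_comp (Equiv.mulLeft (β : A)) (fun τ => N (δ τ))
    rw [h5, ← hΔ] at h4
    linarith
  refine ⟨φ, ?_, ?_, ?_⟩
  · intro w hw
    have : ∃ σ : A, u σ w ≠ 0 := by
      by_contra hcon
      push Not at hcon
      apply hw
      rw [hφ, Finsupp.smul_apply, Finsupp.finset_sum_apply, Finset.sum_eq_zero (fun σ _ => hcon σ),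
        smul_zero]
    obtain ⟨σ, hσ⟩ := this
    simp only [hu, cm_apply] at hσ
    exact hsec (hψ _ hσ)
  · have h1 : c.EW φ ≤ ∑ j : Bool, (2 * RR j + 8 * Δ) := by
      unfold EW
      refine Finset.sum_le_sum fun j _ => ?_
      have hm : (0 : ℝ) < (Fintype.card (B j) : ℝ) := by exact_mod_cast Fintype.card_pos
      rw [← Finset.sum_div, Finset.sum_comm, div_le_iff₀ hm]
      calc ∑ β : B j, ∑ τ : A, N (tr (c.gW j τ β) φ - φ)
          ≤ ∑ β : B j, (2 * N (tr (c.iR j β) ψ - ψ) + 8 * Δ) :=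
            Finset.sum_le_sum fun β _ => hstep j β
        _ = (2 * RR j + 8 * Δ) * (Fintype.card (B j) : ℝ) := by
            rw [Finset.sum_add_distrib, ← Finset.mul_sum, Finset.sum_const, nsmul_eq_mul,
              Finset.card_univ]
            simp only [hRR]
            field_simp
    rw [Finset.sum_add_distrib, ← Finset.mul_sum] at h1
    rw [hED]
    simp only [Finset.sum_const, Finset.card_univ, Fintype.card_bool, nsmul_eq_mul] at h1
    push_cast at h1
    linarith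
  · rw [hNψ, hED]
    linarith

end Core
end Pool.Agent.Helper889.Hn
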