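import Mathlib
import Pool.Agent.Helper889.Hn.Defs

set_option autoImplicit false
set_option linter.unusedSectionVars false
set_option linter.unusedVariables false

namespace Pool.Agent.Helper889.Hn
open Pool.Agent.Helper889.Na
namespace Core
variable {X A : Type} [Fintype X] [DecidableEq X] [Group A] [Fintype A] {act : A →* Equiv.Perm X}
  {B : Bool → Subgroup A} [∀ j, Fintype (B j)] {Q : Bool → X → Bool} {G : Type} [Group G]
  (c : Core act B Q G)

include c in
theorem infinite (x₀ x₁ : X) (hx : x₀ ≠ x₁) (σ₀ : A) (hσ : σ₀ ≠ 1) : Infinite G := by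
  by_contra hinf
  rw [not_infinite_iff_finite] at hinf
  have hG : Nontrivial G := by
    refine ⟨c.iA σ₀, 1, ?_⟩
    intro h
    apply hσ
    apply c.dec_inj σ₀ 1
    rw [map_one, mul_one, h]
  have h1 : Nat.card (X → G) ≤ Nat.card G := Nat.card_le_card_of_injective _ c.P_inj
  rw [Nat.card_fun] at h1
  have h2 : 1 < Nat.card G := Finite.one_lt_card
  have h3 : 1 < Nat.card X := by
    rw [Nat.card_eq_fintype_card]
    exact Fintype.one_lt_card_iff.mpr ⟨x₀, x₁, hx⟩
  have h4 : Nat.card G < Nat.card G ^ Nat.card X := by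
    calc Nat.card G = Nat.card G ^ 1 := (pow_one _).symm
      _ < Nat.card G ^ Nat.card X := Nat.pow_lt_pow_right h2 h3
  omega

include c in
/-- every homomorphism to a real vector space is trivial, because `G` is generated by finite groups -/
theorem perfect {V : Type*} [AddCommGroup V] [Module ℝ V] (f : G → V) (hf : ∀ g h, f (g * h) = f g + f h) (g : G) : f g = 0 := by
  have h1 : f 1 = 0 := by
    have := hf 1 1
    rw [mul_one] at this
    exact left_eq_add.mp this
  have hinv : ∀ g : G, f g⁻¹ = - f g := by
    intro g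
    have := hf g g⁻¹
    rw [mul_inv_cancel, h1] at this
    exact (neg_eq_of_add_eq_zero_right this.symm).symm
  have hpow : ∀ (g : G) (n : ℕ), f (g ^ n) = (n : ℝ) • f g := by
    intro g n
    induction n with
    | zero => rw [pow_zero, h1, Nat.cast_zero, zero_smul]
    | succ n ih => rw [pow_succ, hf, ih, Nat.cast_succ, add_smul, one_smul]
  have hfin : ∀ (g : G) (n : ℕ), 0 < n → g ^ n = 1 → f g = 0 := by
    intro g n hn hgn
    have h2 := hpow g n
    rw [hgn, h1] at h2
    rcases smul_eq_zero.mp h2.symm with h3 | h3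
    · exact absurd (Nat.cast_eq_zero.mp h3) (by omega)
    · exact h3
  have hg : g ∈ Subgroup.closure (Set.range c.iA ∪ ⋃ j, Set.range (c.iR j)) := by
    rw [c.gen]; exact Subgroup.mem_top g
  induction hg using Subgroup.closure_induction with
  | mem x hx =>
    rcases hx with ⟨a, rfl⟩ | hx
    · apply hfin _ (Fintype.card A) Fintype.card_pos
      rw [← map_pow, pow_card_eq_one, map_one]
    · obtain ⟨j, β, rfl⟩ := Set.mem_iUnion.mp hx
      apply hfin _ (Fintype.card (B j)) Fintype.card_pos
      rw [← map_pow, pow_card_eq_one, map_one]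
  | one => exact h1
  | mul x y _ _ hx hy => rw [hf, hx, hy, add_zero]
  | inv x _ hx => rw [hinv, hx, neg_zero]

end Core
end Pool.Agent.Helper889.Hn
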