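import Mathlib
import Pool.Agent.Helper889.Hn.Defs

set_option autoImplicit false
set_option linter.unusedSectionVars false
set_option linter.unusedVariables false

namespace Pool.Agent.Helper889.Hn
open Pool.Agent.Helper889.Na
namespace Core
variable {X A : Type} [Fintype X] [DecidableEq X] [Group A] [Fintype A] {act : A →* Equiv.Perm X}
  {B : Bool → Subgroup A} [∀ j, Fintype (B j)] {Q : Bool → X → Bool} {G : Type} [Group G]
  (c : Core act B Q G)

/-- slices of a function -/
noncomputable def slice_sl (x : X) (w0 : X → G) (φ : (X → G) →₀ ℝ) : G →₀ ℝ :=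
  φ.comapDomain (fun g => Function.update w0 x g) (by
    intro a _ b _ h
    have := congrFun h x
    simpa using this)

omit [Fintype X] in
theorem slice_sl_apply (x : X) (w0 : X → G) (φ : (X → G) →₀ ℝ) (g : G) :
    slice_sl x w0 φ g = φ (Function.update w0 x g) := rfl

theorem slice_N (x : X) (T : Finset (X → G)) (hT1 : ∀ w0 ∈ T, w0 x = 1) (φ' : (X → G) →₀ ℝ)
    (hT : ∀ w, φ' w ≠ 0 → Function.update w x 1 ∈ T) :
    N φ' = ∑ w0 ∈ T, N (slice_sl x w0 φ') := by
  classical
  rw [N_eq_sum φ' φ'.support (Finset.Subset.refl _),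
    ← Finset.sum_fiberwise_of_maps_to (g := fun w : X → G => Function.update w x 1) (t := T)
      (fun w hw => hT w (Finsupp.mem_support_iff.mp hw))]
  refine Finset.sum_congr rfl fun w0 hw0 => ?_
  rw [N_eq_sum (slice_sl x w0 φ') _ (Finset.Subset.refl _)]
  refine Finset.sum_bij' (fun w _ => w x) (fun g _ => Function.update w0 x g) ?_ ?_ ?_ ?_ ?_
  · intro w hw
    rw [Finset.mem_filter] at hw
    obtain ⟨h1, h2⟩ := hw
    rw [Finsupp.mem_support_iff, slice_sl_apply, ← h2, Function.update_idem,
      Function.update_eq_self]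
    exact Finsupp.mem_support_iff.mp h1
  · intro g hg
    rw [Finsupp.mem_support_iff, slice_sl_apply] at hg
    rw [Finset.mem_filter, Finsupp.mem_support_iff]
    refine ⟨hg, ?_⟩
    rw [Function.update_idem, ← hT1 w0 hw0, Function.update_eq_self]
  · intro w hw
    rw [Finset.mem_filter] at hw
    show Function.update w0 x (w x) = w
    rw [← hw.2, Function.update_idem, Function.update_eq_self]
  · intro g _
    show Function.update w0 x g x = g
    rw [Function.update_self]
  · intro w hw
    rw [Finset.mem_filter] at hw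
    rw [slice_sl_apply, ← hw.2, Function.update_idem, Function.update_eq_self]

theorem slice_shift (x : X) (g : G) (w : X → G) :
    (Pi.mulSingle x g : X → G)⁻¹ * w = Function.update w x (g⁻¹ * w x) := by
  funext y
  by_cases hy : y = x
  · subst hy
    simp
  · simp [hy]

theorem slice_tr (x : X) (w0 : X → G) (g : G) (φ : (X → G) →₀ ℝ) :
    slice_sl x w0 (tr (Pi.mulSingle x g) φ - φ) = tr g (slice_sl x w0 φ) - slice_sl x w0 φ := by
  ext h
  rw [slice_sl_apply, Finsupp.sub_apply, Finsupp.sub_apply, tr_apply, tr_apply, slice_sl_apply,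
    slice_sl_apply, slice_shift, Function.update_idem, Function.update_self]

theorem slice (x : X) (R : ℕ) (lam : ℝ) (hlam : ∀ ψ : G →₀ ℝ, (∀ g, ψ g ≠ 0 → g ∈ c.ball R) → lam * N ψ ≤ c.ED ψ)
    (φ : (X → G) →₀ ℝ) (hφ : ∀ w, φ w ≠ 0 → ∀ y, w y ∈ c.ball R) : lam * N φ ≤ c.EX x φ := by
  classical
  obtain ⟨T, hT⟩ : ∃ T : Finset (X → G), T = φ.support.image (fun w => Function.update w x 1) :=
    ⟨_, rfl⟩
  have hT1 : ∀ w0 ∈ T, w0 x = 1 := by
    intro w0 hw0
    rw [hT, Finset.mem_image] at hw0
    obtain ⟨w, _, rfl⟩ := hw0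
    exact Function.update_self _ _ _
  have hTφ : ∀ w, φ w ≠ 0 → Function.update w x 1 ∈ T := by
    intro w hw
    rw [hT, Finset.mem_image]
    exact ⟨w, Finsupp.mem_support_iff.mpr hw, rfl⟩
  have hTg : ∀ (g : G) (w : X → G), (tr (Pi.mulSingle x g) φ - φ) w ≠ 0 →
      Function.update w x 1 ∈ T := by
    intro g w hw
    by_cases h1 : φ w = 0
    · rw [Finsupp.sub_apply, h1, sub_zero, tr_apply, slice_shift] at hw
      have := hTφ _ hw
      rwa [Function.update_idem] at this
    · exact hTφ w h1
  have hN : ∀ g : G, N (tr (Pi.mulSingle x g) φ - φ) =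
      ∑ w0 ∈ T, N (tr g (slice_sl x w0 φ) - slice_sl x w0 φ) := by
    intro g
    rw [slice_N x T hT1 _ (hTg g)]
    exact Finset.sum_congr rfl fun w0 _ => by rw [slice_tr]
  have hEX : c.EX x φ = ∑ w0 ∈ T, c.ED (slice_sl x w0 φ) := by
    unfold EX ED
    rw [Finset.sum_add_distrib, ← Finset.mul_sum, ← Finset.sum_div]
    congr 1
    · congr 2
      rw [Finset.sum_comm]
      exact Finset.sum_congr rfl fun σ _ => hN _
    · rw [Finset.sum_comm]
      refine Finset.sum_congr rfl fun j _ => ?_
      rw [← Finset.sum_div]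
      congr 1
      rw [Finset.sum_comm]
      exact Finset.sum_congr rfl fun β _ => hN _
  rw [hEX, slice_N x T hT1 φ hTφ, Finset.mul_sum]
  refine Finset.sum_le_sum fun w0 _ => hlam _ fun g hg => ?_
  rw [slice_sl_apply] at hg
  have := hφ _ hg x
  rwa [Function.update_self] at this

end Core
end Pool.Agent.Helper889.Hn
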