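import Mathlib
import Pool.Agent.Helper889.Hn.Words

set_option autoImplicit false
set_option linter.unusedSectionVars false
set_option linter.unusedVariables false

namespace Pool.Agent.Helper889.Hn

/-- TARGETS -/
theorem conj_PP (m : ℕ) (σ : AA m) (w : XX m → Equiv.Perm (ℕ → XX m)) :
    rt m σ * PP w * (rt m σ)⁻¹ = PP (fun x => w (actA m σ⁻¹ x)) := by
  ext1 ω
  rw [← cns_eta ω, ← map_inv, Equiv.Perm.mul_apply, Equiv.Perm.mul_apply, rt_cns, PP_apply, rt_cns, PP_apply]
  congr 1
  rw [← Equiv.Perm.mul_apply, ← map_mul, mul_inv_cancel, map_one, Equiv.Perm.one_apply]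

theorem rr_eq (m : ℕ) (j : Bool) (β : BB m j) :
    rr m j β = rt m (β : AA m) * PP (fun x => if QQ m j x = true then rr m j β else 1) := by
  ext1 ω
  rw [← cns_eta ω, Equiv.Perm.mul_apply, PP_apply, rt_cns, rr_cns]
  by_cases h : (ω 0).2 = yy j
  · have h1 : QQ m j (ω 0) = true := by simp [QQ, h]
    have h2 : actA m β.1 (ω 0) = ω 0 := by
      have h3 := BB_fx m j β (ω 0) (by simp [TT, QQ, h])
      exact h3
    rw [if_pos h, if_pos h1, h2]
  · have h1 : ¬ QQ m j (ω 0) = true := by simp [QQ, h]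
    rw [if_neg h, if_neg h1, Equiv.Perm.one_apply]

end Pool.Agent.Helper889.Hn
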