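import Mathlib
import Pool.Agent.Helper889.Hn.Words

set_option autoImplicit false
set_option linter.unusedSectionVars false
set_option linter.unusedVariables false

namespace Pool.Agent.Helper889.Hn

/-- TARGET -/
theorem perfBB (m : ℕ) (j : Bool) (S : Subgroup (BB m j)) (h : ∀ a b : BB m j, a * b * a⁻¹ * b⁻¹ ∈ S) : S = ⊤ := by
  have hcard : 5 ≤ Nat.card (Finset.univ.erase (yy j) : Finset (Fin 7)) := by
    rw [Nat.card_eq_fintype_card, Fintype.card_coe, Finset.card_erase_of_mem (Finset.mem_univ _)]
    simp
  have hfix : ∀ (k : alternatingGroup (Finset.univ.erase (yy j) : Finset (Fin 7))),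
      ((alternatingGroup.ofSubtype (Finset.univ.erase (yy j) : Finset (Fin 7)) k : A0) : Equiv.Perm (Fin 7)) (yy j)
        = yy j := by
    intro k
    rw [alternatingGroup.coe_ofSubtype]
    exact Equiv.Perm.ofSubtype_apply_of_not_mem _ (by simp)
  let φ : ∀ i : Fin m, alternatingGroup (Finset.univ.erase (yy j) : Finset (Fin 7)) →* BB m j := fun i =>
    ((MonoidHom.mulSingle (fun _ : Fin m => A0) i).comp
      (alternatingGroup.ofSubtype (Finset.univ.erase (yy j) : Finset (Fin 7)))).codRestrict (BB m j) (by
      intro k i'
      by_cases h : i' = i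
      · subst h
        rw [MonoidHom.comp_apply, MonoidHom.mulSingle_apply, Pi.mulSingle_eq_same]
        exact hfix k
      · rw [MonoidHom.comp_apply, MonoidHom.mulSingle_apply, Pi.mulSingle_eq_of_ne h]
        rfl)
  have hφ : ∀ i k, φ i k ∈ S := by
    intro i k
    have h1 : commutator (alternatingGroup (Finset.univ.erase (yy j) : Finset (Fin 7))) ≤ S.comap (φ i) := by
      rw [commutator_eq_closure, Subgroup.closure_le]
      rintro _ ⟨a, b, rfl⟩
      rw [SetLike.mem_coe, Subgroup.mem_comap, commutatorElement_def, map_mul, map_mul, map_mul, map_inv, map_inv]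
      exact h (φ i a) (φ i b)
    rw [commutator_alternatingGroup_eq_top hcard] at h1
    exact h1 (Subgroup.mem_top k)
  have hrange : ∀ σ : A0, σ.1 (yy j) = yy j →
      ∃ k, alternatingGroup.ofSubtype (Finset.univ.erase (yy j) : Finset (Fin 7)) k = σ := by
    intro σ hσ
    have : σ ∈ (alternatingGroup.ofSubtype (Finset.univ.erase (yy j) : Finset (Fin 7))).range := by
      rw [alternatingGroup.mem_range_ofSubtype_iff]
      intro z hz
      simp only [Finset.mem_erase, Finset.mem_univ, and_true]
      rintro rfl
      exact (Equiv.Perm.mem_support.mp hz) hσ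
    exact this
  rw [eq_top_iff]
  intro b _
  have hb : ∀ T : Finset (Fin m), (fun i => if i ∈ T then b.1 i else 1 : AA m) ∈ BB m j := by
    intro T i
    by_cases hi : i ∈ T
    · simp only [if_pos hi]
      exact b.2 i
    · simp only [if_neg hi]
      rfl
  have key : ∀ T : Finset (Fin m), (⟨fun i => if i ∈ T then b.1 i else 1, hb T⟩ : BB m j) ∈ S := by
    intro T
    induction T using Finset.induction_on with
    | empty =>
      have : (⟨fun i => if i ∈ (∅ : Finset (Fin m)) then b.1 i else 1, hb ∅⟩ : BB m j) = 1 := by
        apply Subtype.ext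
        funext i
        simp
      rw [this]
      exact S.one_mem
    | insert a T ha ih =>
      obtain ⟨k, hk⟩ := hrange (b.1 a) (b.2 a)
      have : (⟨fun i => if i ∈ insert a T then b.1 i else 1, hb (insert a T)⟩ : BB m j) =
          φ a k * ⟨fun i => if i ∈ T then b.1 i else 1, hb T⟩ := by
        apply Subtype.ext
        funext i
        show (if i ∈ insert a T then b.1 i else 1) =
          (Pi.mulSingle a (alternatingGroup.ofSubtype (Finset.univ.erase (yy j) : Finset (Fin 7)) k) : AA m) i *
            (if i ∈ T then b.1 i else 1)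
        rw [hk]
        by_cases hi : i = a
        · subst hi
          rw [Pi.mulSingle_eq_same, if_neg ha, if_pos (Finset.mem_insert_self _ _), mul_one]
        · rw [Pi.mulSingle_eq_of_ne hi, one_mul]
          by_cases hiT : i ∈ T
          · rw [if_pos hiT, if_pos (Finset.mem_insert_of_mem hiT)]
          · rw [if_neg hiT, if_neg (by simp [hi, hiT])]
      rw [this]
      exact S.mul_mem (hφ a k) ih
  have := key Finset.univ
  have h2 : (⟨fun i => if i ∈ (Finset.univ : Finset (Fin m)) then b.1 i else 1, hb Finset.univ⟩ : BB m j) = b := by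
    apply Subtype.ext
    funext i
    simp
  rwa [h2] at this

end Pool.Agent.Helper889.Hn
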