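import Mathlib
import Pool.Agent.Helper889.Hn.Words

set_option autoImplicit false
set_option linter.unusedSectionVars false
set_option linter.unusedVariables false

namespace Pool.Agent.Helper889.Hn

open scoped Pointwise

/-- sets of values reached by words of bounded length -/
def Gd (E : Set A0) : Prop :=
  ∃ K : ℕ, ∀ (m : ℕ) (G : Type) [Group G] (iA : AA m →* G) (iR : (j : Bool) → BB m j →* G),
    Rel iA iR → ∀ s : AA m, (∀ i, s i ∈ E) →
      ∃ l : List G, l.length ≤ K ∧ (∀ g ∈ l, ∃ (j : Bool) (β : BB m j), g = iR j β) ∧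
        l.prod = iA s

theorem gd_mono {E E' : Set A0} (h : E ⊆ E') (hE : Gd E') : Gd E := by
  obtain ⟨K, hK⟩ := hE
  refine ⟨K, ?_⟩
  intro m G _ iA iR hr s hs
  exact hK m G iA iR hr s (fun i => h (hs i))

theorem gd_one : Gd {1} := by
  refine ⟨0, ?_⟩
  intro m G _ iA iR hr s hs
  have h1 : s = 1 := by
    funext i
    exact hs i
  refine ⟨[], le_refl _, by simp, ?_⟩
  rw [h1, map_one]
  rfl

theorem gd_mul {E E' : Set A0} (hE : Gd E) (hE' : Gd E') : Gd (E * E') := by
  obtain ⟨K, hK⟩ := hE
  obtain ⟨K', hK'⟩ := hE'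
  refine ⟨K + K', ?_⟩
  intro m G _ iA iR hr s hs
  have h1 : ∀ i, ∃ p : A0 × A0, p.1 ∈ E ∧ p.2 ∈ E' ∧ p.1 * p.2 = s i := by
    intro i
    obtain ⟨a, ha, b, hb, hab⟩ := Set.mem_mul.1 (hs i)
    exact ⟨(a, b), ha, hb, hab⟩
  choose p hp1 hp2 hp3 using h1
  obtain ⟨l1, a1, a2, a3⟩ := hK m G iA iR hr (fun i => (p i).1) hp1
  obtain ⟨l2, b1, b2, b3⟩ := hK' m G iA iR hr (fun i => (p i).2) hp2
  refine ⟨l1 ++ l2, ?_, ?_, ?_⟩
  · rw [List.length_append]
    omega
  · intro g hg
    rcases List.mem_append.1 hg with h | h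
    · exact a2 g h
    · exact b2 g h
  · rw [List.prod_append, a3, b3, ← map_mul]
    congr 1
    funext i
    exact hp3 i

theorem gd_inv {E : Set A0} (hE : Gd E) : Gd (E⁻¹) := by
  obtain ⟨K, hK⟩ := hE
  refine ⟨K, ?_⟩
  intro m G _ iA iR hr s hs
  obtain ⟨l, a1, a2, a3⟩ := hK m G iA iR hr (s⁻¹) (fun i => hs i)
  refine ⟨(l.map (fun x => x⁻¹)).reverse, ?_, ?_, ?_⟩
  · rw [List.length_reverse, List.length_map]
    exact a1
  · intro g hg
    rw [List.mem_reverse, List.mem_map] at hg
    obtain ⟨x, hx, rfl⟩ := hg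
    obtain ⟨j, β, rfl⟩ := a2 x hx
    exact ⟨j, β⁻¹, (map_inv _ _).symm⟩
  · rw [← List.prod_inv_reverse, a3, map_inv, inv_inv]

/-- TARGET -/
theorem reach
    (sub7 : ∀ S : Subgroup A0,
      (∀ a b : A0, a.1 0 = 0 → a.1 1 = 1 → b.1 0 = 0 → b.1 1 = 1 → a * b * a⁻¹ * b⁻¹ ∈ S) →
      (∀ (j : Bool) (β ρ : A0), β.1 (yy j) = yy j → ρ.1 (yy j) = yy j → ρ ∈ S → β * ρ * β⁻¹ ∈ S) → S = ⊤) :
    ∃ K : ℕ, ∀ (m : ℕ) (G : Type) [Group G] (iA : AA m →* G) (iR : (j : Bool) → BB m j →* G), Rel iA iR →
      ∀ σ : AA m, ∃ l : List G, l.length ≤ K ∧ (∀ s ∈ l, ∃ (j : Bool) (β : BB m j), s = iR j β) ∧ l.prod = iA σ := by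
  classical
  let S : Subgroup A0 :=
    { carrier := {σ | Gd {1, σ}}
      one_mem' := by
        show Gd {1, 1}
        rw [Set.pair_eq_singleton]
        exact gd_one
      mul_mem' := by
        intro a b ha hb
        refine gd_mono ?_ (gd_mul ha hb)
        intro x hx
        rcases hx with rfl | hx
        · exact Set.mem_mul.2 ⟨1, Or.inl rfl, 1, Or.inl rfl, one_mul 1⟩
        · have hx' : x = a * b := hx
          exact Set.mem_mul.2 ⟨a, Or.inr rfl, b, Or.inr rfl, hx'.symm⟩
      inv_mem' := by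
        intro a ha
        refine gd_mono ?_ (gd_inv ha)
        intro x hx
        rcases hx with rfl | hx
        · exact Or.inl inv_one
        · have hx' : x = a⁻¹ := hx
          refine Or.inr ?_
          show x⁻¹ = a
          rw [hx', inv_inv] }
  have hS : S = ⊤ := by
    apply sub7 S
    · intro a b ha0 ha1 hb0 hb1
      show Gd {1, a * b * a⁻¹ * b⁻¹}
      refine ⟨4, ?_⟩
      intro m G _ iA iR hr s hs
      let a' : AA m := fun i => if s i = 1 then 1 else a
      let b' : AA m := fun i => if s i = 1 then 1 else b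
      have ma : ∀ (j : Bool), a' ∈ BB m j := by
        intro j i
        show (if s i = 1 then (1 : A0) else a).1 (yy j) = yy j
        split_ifs
        · rfl
        · cases j
          · exact ha0
          · exact ha1
      have mb : ∀ (j : Bool), b' ∈ BB m j := by
        intro j i
        show (if s i = 1 then (1 : A0) else b).1 (yy j) = yy j
        split_ifs
        · rfl
        · cases j
          · exact hb0
          · exact hb1
      have hs' : a' * b' * a'⁻¹ * b'⁻¹ = s := by
        funext i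
        show a' i * b' i * (a' i)⁻¹ * (b' i)⁻¹ = s i
        by_cases h : s i = 1
        · have e1 : a' i = 1 := if_pos h
          have e2 : b' i = 1 := if_pos h
          rw [e1, e2, h]
          simp
        · have e1 : a' i = a := if_neg h
          have e2 : b' i = b := if_neg h
          rw [e1, e2]
          rcases hs i with h' | h'
          · exact absurd h' h
          · exact (Set.mem_singleton_iff.1 h').symm
      have hrel := hr.1 a' b' (ma false) (ma true) (mb false) (mb true)
      rw [hs'] at hrel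
      refine ⟨[iR false ⟨a', ma false⟩, iR true ⟨b', mb true⟩, (iR false ⟨a', ma false⟩)⁻¹,
        (iR true ⟨b', mb true⟩)⁻¹], le_refl _, ?_, ?_⟩
      · intro g hg
        simp only [List.mem_cons, List.not_mem_nil, or_false] at hg
        rcases hg with h | h | h | h
        · exact ⟨false, _, h⟩
        · exact ⟨true, _, h⟩
        · exact ⟨false, ⟨a', ma false⟩⁻¹, by rw [h, map_inv]⟩
        · exact ⟨true, ⟨b', mb true⟩⁻¹, by rw [h, map_inv]⟩
      · rw [← hrel]
        simp only [List.prod_cons, List.prod_nil, mul_one, mul_assoc]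
    · intro j β ρ hβ hρ hm
      have hm' : Gd {1, ρ} := hm
      show Gd {1, β * ρ * β⁻¹}
      obtain ⟨K, hK⟩ := hm'
      refine ⟨K + 2, ?_⟩
      intro m G _ iA iR hr s hs
      let ρ' : AA m := fun i => if s i = 1 then 1 else ρ
      let β' : AA m := fun _ => β
      have mr : ρ' ∈ BB m j := by
        intro i
        show (if s i = 1 then (1 : A0) else ρ).1 (yy j) = yy j
        split_ifs
        · rfl
        · exact hρ
      have mb : β' ∈ BB m j := fun _ => hβ
      have hs' : β' * ρ' * β'⁻¹ = s := by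
        funext i
        show β * ρ' i * β⁻¹ = s i
        by_cases h : s i = 1
        · have e1 : ρ' i = 1 := if_pos h
          rw [e1, h]
          simp
        · have e1 : ρ' i = ρ := if_neg h
          rw [e1]
          rcases hs i with h' | h'
          · exact absurd h' h
          · exact (Set.mem_singleton_iff.1 h').symm
      have hrel := hr.2 j ⟨β', mb⟩ ⟨ρ', mr⟩
      simp only at hrel
      rw [hs'] at hrel
      obtain ⟨l, c1, c2, c3⟩ := hK m G iA iR hr ρ' (by
        intro i
        show (if s i = 1 then (1 : A0) else ρ) ∈ ({1, ρ} : Set A0)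
        split_ifs
        · exact Or.inl rfl
        · exact Or.inr rfl)
      refine ⟨iR j ⟨β', mb⟩ :: (l ++ [(iR j ⟨β', mb⟩)⁻¹]), ?_, ?_, ?_⟩
      · simp only [List.length_cons, List.length_append, List.length_nil]
        omega
      · intro g hg
        rcases List.mem_cons.1 hg with h | h
        · exact ⟨j, _, h⟩
        · rcases List.mem_append.1 h with h | h
          · exact c2 g h
          · exact ⟨j, ⟨β', mb⟩⁻¹, by rw [List.mem_singleton.1 h, map_inv]⟩
      · rw [List.prod_cons, List.prod_append, c3, List.prod_singleton, ← hrel, mul_assoc]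
  have hP : ∀ σ : A0, Gd {1, σ} := by
    intro σ
    have : σ ∈ S := by rw [hS]; exact Subgroup.mem_top σ
    exact this
  have hL : ∀ L : Finset A0, Gd (insert 1 (L : Set A0)) := by
    intro L
    induction L using Finset.induction_on with
    | empty =>
      refine gd_mono ?_ gd_one
      intro x hx
      simpa using hx
    | insert a L _ ih =>
      refine gd_mono ?_ (gd_mul ih (hP a))
      intro x hx
      rcases hx with rfl | hx
      · exact Set.mem_mul.2 ⟨1, Or.inl rfl, 1, Or.inl rfl, one_mul 1⟩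
      · rcases Finset.mem_insert.1 (Finset.mem_coe.1 hx) with rfl | h
        · exact Set.mem_mul.2 ⟨1, Or.inl rfl, x, Or.inr rfl, one_mul x⟩
        · exact Set.mem_mul.2 ⟨x, Or.inr (Finset.mem_coe.2 h), 1, Or.inl rfl, mul_one x⟩
  have _inst : Fintype A0 := Fintype.ofFinite A0
  obtain ⟨K, hK⟩ := hL Finset.univ
  refine ⟨K, ?_⟩
  intro m G _ iA iR hr σ
  exact hK m G iA iR hr σ (fun i => Or.inr (Finset.mem_coe.2 (Finset.mem_univ _)))

end Pool.Agent.Helper889.Hn
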