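import Mathlib
import Pool.Agent.Helper889.Hn.Words

set_option autoImplicit false
set_option linter.unusedSectionVars false
set_option linter.unusedVariables false

namespace Pool.Agent.Helper889.Hn

/-- TARGET -/
theorem real1 (k : ℕ)
    (gadget : ∀ (T : Fin k → Bool) (i j c : Fin k), i ≠ j → i ≠ c → j ≠ c → T i = true → T j = true → T c = true → ∀ ω : ℕ → Fin k,
      RF (fun z => T z && decide (z ≠ c)) (Equiv.swap i j)
        (RF (fun z => T z && decide (z ≠ i)) (Equiv.swap j c)
          (RF (fun z => T z && decide (z ≠ c)) (Equiv.swap i j)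
            (RF (fun z => T z && decide (z ≠ j)) (Equiv.swap i c)
              (RF (fun z => T z && decide (z ≠ c)) (Equiv.swap i j) (dbl ω))))) =
        dbl (RF T (Equiv.swap i j) ω))
    (n : ℕ) : ∀ (T : Fin k → Bool), (Finset.univ.filter fun z => T z = true).card = n + 2 → ∀ i j : Fin k, T i = true → T j = true → i ≠ j →
      ∃ g ∈ HK k, ∀ ω : ℕ → Fin k, g (code n ω) = code n (RF T (Equiv.swap i j) ω) := by
  classical
  induction n with
  | zero =>
    intro T hT i j hi hj hij
    have hS : ({i, j} : Finset (Fin k)) = Finset.univ.filter fun z => T z = true := by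
      apply Finset.eq_of_subset_of_card_le
      · intro z hz
        rw [Finset.mem_insert, Finset.mem_singleton] at hz
        rw [Finset.mem_filter]
        rcases hz with rfl | rfl
        · exact ⟨Finset.mem_univ _, hi⟩
        · exact ⟨Finset.mem_univ _, hj⟩
      · rw [hT, Finset.card_pair hij]
    have hTh : T = hanT i j := by
      funext z
      have hz : z ∈ ({i, j} : Finset (Fin k)) ↔ T z = true := by
        rw [hS, Finset.mem_filter]; simp
      rw [Finset.mem_insert, Finset.mem_singleton] at hz
      simp only [hanT]
      by_cases h : T z = true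
      · rw [h]
        rcases hz.2 h with h1 | h1
        · simp [h1]
        · simp [h1]
      · have h2 : ¬ (z = i ∨ z = j) := fun h3 => h (hz.1 h3)
        push Not at h2
        have h4 : T z = false := by simpa using h
        rw [h4]
        simp [h2.1, h2.2]
    refine ⟨han i j, Subgroup.subset_closure ⟨(i, j), rfl⟩, ?_⟩
    intro ω
    rw [code_zero, code_zero, hTh]
    rfl
  | succ n ih =>
    intro T hT i j hi hj hij
    obtain ⟨c, hcS, hcn⟩ := Finset.exists_mem_notMem_of_card_lt_card
      (s := ({i, j} : Finset (Fin k))) (t := Finset.univ.filter fun z => T z = true)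
      (by rw [hT, Finset.card_pair hij]; omega)
    rw [Finset.mem_insert, Finset.mem_singleton] at hcn
    push Not at hcn
    have hc : T c = true := (Finset.mem_filter.1 hcS).2
    have hcard : ∀ d : Fin k, T d = true →
        (Finset.univ.filter fun z => (T z && decide (z ≠ d)) = true).card = n + 2 := by
      intro d hd
      have : (Finset.univ.filter fun z => (T z && decide (z ≠ d)) = true) =
          (Finset.univ.filter fun z => T z = true).erase d := by
        ext z
        simp only [Finset.mem_filter, Finset.mem_erase, Finset.mem_univ, true_and,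
          Bool.and_eq_true, decide_eq_true_eq]
        tauto
      have hmem : d ∈ (Finset.univ.filter fun z => T z = true) :=
        Finset.mem_filter.2 ⟨Finset.mem_univ _, hd⟩
      rw [this, Finset.card_erase_of_mem hmem, hT]
      rfl
    have hmk : ∀ d z : Fin k, T z = true → z ≠ d → (fun z => T z && decide (z ≠ d)) z = true := by
      intro d z hz hzd
      simp [hz, hzd]
    obtain ⟨g1, hg1, e1⟩ := ih (fun z => T z && decide (z ≠ c)) (hcard c hc) i j
      (hmk c i hi hcn.1.symm) (hmk c j hj hcn.2.symm) hij
    obtain ⟨g2, hg2, e2⟩ := ih (fun z => T z && decide (z ≠ j)) (hcard j hj) i c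
      (hmk j i hi hij) (hmk j c hc hcn.2) hcn.1.symm
    obtain ⟨g3, hg3, e3⟩ := ih (fun z => T z && decide (z ≠ i)) (hcard i hi) j c
      (hmk i j hj hij.symm) (hmk i c hc hcn.1) hcn.2.symm
    refine ⟨g1 * g3 * g1 * g2 * g1, ?_, ?_⟩
    · exact (HK k).mul_mem ((HK k).mul_mem ((HK k).mul_mem ((HK k).mul_mem hg1 hg3) hg1) hg2) hg1
    · intro ω
      rw [code_succ, code_succ]
      simp only [Equiv.Perm.mul_apply]
      rw [e1, e2, e1, e3, e1, gadget T i j c hij hcn.1.symm hcn.2.symm hi hj hc ω]

end Pool.Agent.Helper889.Hn
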