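import Mathlib
import Pool.Agent.Helper889.Hn.Words

set_option autoImplicit false
set_option linter.unusedSectionVars false
set_option linter.unusedVariables false

namespace Pool.Agent.Helper889.Hn

/-- TARGET -/
theorem real2 (k : ℕ) (n : ℕ) (T : Fin k → Bool)
    (h : ∀ i j : Fin k, T i = true → T j = true → i ≠ j →
      ∃ g ∈ HK k, ∀ ω : ℕ → Fin k, g (code n ω) = code n (RF T (Equiv.swap i j) ω))
    (σ : Equiv.Perm (Fin k)) (hσ : ∀ z, T z = false → σ z = z) :
    ∃ g ∈ HK k, ∀ ω : ℕ → Fin k, g (code n ω) = code n (RF T σ ω) := by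
  classical
  induction hN : σ.support.card using Nat.strong_induction_on generalizing σ with
  | _ N ih =>
    by_cases h1 : σ = 1
    · subst h1
      exact ⟨1, (HK k).one_mem, fun ω => by rw [RF_one]; rfl⟩
    · obtain ⟨z, hz⟩ : ∃ z, σ z ≠ z := by
        by_contra hc
        push Not at hc
        exact h1 (Equiv.ext hc)
      have hTz : T z = true := by
        by_contra hc
        exact hz (hσ z (by simpa using hc))
      have hTz' : T (σ z) = true := by
        by_contra hc
        exact hz (σ.injective (hσ (σ z) (by simpa using hc)))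
      have hsw : ∀ w, T w = false → Equiv.swap z (σ z) w = w := by
        intro w hw
        apply Equiv.swap_apply_of_ne_of_ne
        · intro e; rw [e, hTz] at hw; exact Bool.noConfusion hw
        · intro e; rw [e, hTz'] at hw; exact Bool.noConfusion hw
      have hτ : ∀ w, T w = false → (Equiv.swap z (σ z) * σ) w = w := by
        intro w hw
        rw [Equiv.Perm.mul_apply, hσ w hw, hsw w hw]
      obtain ⟨g, hg, hgω⟩ := ih _ (by rw [← hN]; exact Equiv.Perm.card_support_swap_mul hz) _ hτ rfl
      obtain ⟨g0, hg0, hg0ω⟩ := h z (σ z) hTz hTz' (Ne.symm hz)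
      refine ⟨g0 * g, (HK k).mul_mem hg0 hg, fun ω => ?_⟩
      rw [Equiv.Perm.mul_apply, hgω, hg0ω, RF_mul T _ _ hsw hτ, ← mul_assoc, Equiv.swap_mul_self, one_mul]

end Pool.Agent.Helper889.Hn
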