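import Mathlib
import Pool.Agent.Helper889.Hn.Words

set_option autoImplicit false
set_option linter.unusedSectionVars false
set_option linter.unusedVariables false

namespace Pool.Agent.Helper889.Hn

theorem act_fix {m : ℕ} {j : Bool} {β : AA m} (hβ : β ∈ BB m j) {x : XX m} (hx : x.2 = yy j) :
    actA m β x = x := by
  obtain ⟨i, y⟩ := x
  simp only at hx
  subst hx
  exact Prod.ext rfl (hβ i)

theorem act_ne {m : ℕ} {j : Bool} {β : AA m} (hβ : β ∈ BB m j) {x : XX m} (hx : x.2 ≠ yy j) :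
    (actA m β x).2 ≠ yy j := by
  intro h
  apply hx
  have h1 : (β x.1).1 x.2 = yy j := h
  rw [← hβ x.1] at h1
  exact (β x.1).1.injective h1

theorem act_mul {m : ℕ} (σ τ : AA m) (x : XX m) : actA m σ (actA m τ x) = actA m (σ * τ) x := by
  rw [map_mul]; rfl

theorem yy_ne : yy false ≠ yy true := by decide

/-- TARGET -/
theorem rel_words (m : ℕ) : Rel (rt m) (rr m) := by
  constructor
  · intro a b ha0 ha1 hb0 hb1
    rw [mul_inv_eq_iff_eq_mul, mul_inv_eq_iff_eq_mul]
    ext1 ω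
    rw [← cns_eta ω]
    generalize ω 0 = x
    generalize (fun n => ω (n + 1)) = ω'
    simp only [Equiv.Perm.mul_apply]
    have hc0 : a * b * a⁻¹ * b⁻¹ ∈ BB m false :=
      mul_mem (mul_mem (mul_mem ha0 hb0) (inv_mem ha0)) (inv_mem hb0)
    have hc1 : a * b * a⁻¹ * b⁻¹ ∈ BB m true :=
      mul_mem (mul_mem (mul_mem ha1 hb1) (inv_mem ha1)) (inv_mem hb1)
    by_cases h0 : x.2 = yy false
    · have h1 : x.2 ≠ yy true := fun h => yy_ne (h0.symm.trans h)
      rw [rr_cns, if_neg h1, act_fix hb0 h0, rr_cns, if_pos h0, rr_cns, if_neg h1, act_fix hb0 h0,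
        rt_cns, act_fix hc0 h0]
    · by_cases h1 : x.2 = yy true
      · rw [rr_cns, if_pos h1, rr_cns, if_neg h0, act_fix ha1 h1, rr_cns, if_neg h0,
          act_fix ha1 h1, rr_cns, if_pos h1, rt_cns, act_fix hc1 h1]
      · rw [rr_cns, if_neg h1, rr_cns, if_neg (act_ne hb0 h0), rr_cns, if_neg h0, rr_cns,
          if_neg (act_ne ha1 h1), rt_cns, act_mul, act_mul, act_mul]
        congr 3
        group
  · intro j β ρ
    rw [mul_inv_eq_iff_eq_mul]
    ext1 ω
    rw [← cns_eta ω]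
    generalize ω 0 = x
    generalize (fun n => ω (n + 1)) = ω'
    simp only [Equiv.Perm.mul_apply]
    have hc : β.1 * ρ.1 * β.1⁻¹ ∈ BB m j := mul_mem (mul_mem β.2 ρ.2) (inv_mem β.2)
    by_cases h0 : x.2 = yy j
    · rw [rt_cns, act_fix ρ.2 h0, rr_cns, if_pos h0, rt_cns, act_fix hc h0]
    · rw [rt_cns, rr_cns, if_neg (act_ne ρ.2 h0), rr_cns, if_neg h0, rt_cns, act_mul, act_mul]
      congr 3
      group

end Pool.Agent.Helper889.Hn
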