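import Mathlib
import Pool.Agent.Helper889.Hn.Words

set_option autoImplicit false
set_option linter.unusedSectionVars false
set_option linter.unusedVariables false

namespace Pool.Agent.Helper889.Hn

/-- TARGET -/
theorem root_bound
    (reach : ∃ K : ℕ, ∀ (m : ℕ) (G : Type) [Group G] (iA : AA m →* G) (iR : (j : Bool) → BB m j →* G), Rel iA iR →
      ∀ σ : AA m, ∃ l : List G, l.length ≤ K ∧ (∀ s ∈ l, ∃ (j : Bool) (β : BB m j), s = iR j β) ∧ l.prod = iA σ) :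
    ∃ C : ℝ, 0 ≤ C ∧ ∀ (m : ℕ) (G : Type) [Group G] (iA : AA m →* G) (iR : (j : Bool) → BB m j →* G), Rel iA iR →
      ∀ (H : Type) [NormedAddCommGroup H] [InnerProductSpace ℝ H] (U : G →* (H ≃ₗᵢ[ℝ] H)) (f : G → H),
        (∀ g h, f (g * h) = f g + U g (f h)) → ∀ σ : AA m,
        ‖f (iA σ)‖ ^ 2 ≤ C * ∑ j : Bool, (∑ β : BB m j, ‖f (iR j β)‖ ^ 2) / (Fintype.card (BB m j) : ℝ) := by
  obtain ⟨K, hK⟩ := reach
  refine ⟨4 * (K : ℝ) ^ 2, by positivity, ?_⟩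
  intro m G _ iA iR hrel H _ _ U f hf σ
  set D : ℝ := ∑ j : Bool, (∑ β : BB m j, ‖f (iR j β)‖ ^ 2) / (Fintype.card (BB m j) : ℝ) with hD
  have hcard : ∀ j : Bool, (0 : ℝ) < (Fintype.card (BB m j) : ℝ) := by
    intro j
    have : 0 < Fintype.card (BB m j) := Fintype.card_pos
    exact_mod_cast this
  have hnn : ∀ j : Bool, 0 ≤ (∑ β : BB m j, ‖f (iR j β)‖ ^ 2) / (Fintype.card (BB m j) : ℝ) := by
    intro j
    exact div_nonneg (Finset.sum_nonneg fun β _ => by positivity) (hcard j).le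
  have hD0 : 0 ≤ D := Finset.sum_nonneg fun j _ => hnn j
  have hDj : ∀ j : Bool, (∑ β : BB m j, ‖f (iR j β)‖ ^ 2) / (Fintype.card (BB m j) : ℝ) ≤ D := by
    intro j
    exact Finset.single_le_sum (f := fun j : Bool =>
      (∑ β : BB m j, ‖f (iR j β)‖ ^ 2) / (Fintype.card (BB m j) : ℝ)) (fun j _ => hnn j)
      (Finset.mem_univ j)
  have h1 : ∀ (j : Bool) (β : BB m j), ‖f (iR j β)‖ ^ 2 ≤ 4 * D := by
    intro j β
    have h2 : ∀ γ : BB m j, ‖f (iR j β)‖ ^ 2 ≤ 2 * ‖f (iR j (β * γ))‖ ^ 2 + 2 * ‖f (iR j γ)‖ ^ 2 := by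
      intro γ
      have h3 : f (iR j β) = f (iR j (β * γ)) - U (iR j β) (f (iR j γ)) := by
        rw [map_mul, hf]; abel
      have h4 : ‖f (iR j β)‖ ≤ ‖f (iR j (β * γ))‖ + ‖f (iR j γ)‖ := by
        calc ‖f (iR j β)‖ = ‖f (iR j (β * γ)) - U (iR j β) (f (iR j γ))‖ := by rw [← h3]
          _ ≤ ‖f (iR j (β * γ))‖ + ‖U (iR j β) (f (iR j γ))‖ := norm_sub_le _ _
          _ = _ := by rw [(U (iR j β)).norm_map]
      have h5 := norm_nonneg (f (iR j β))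
      nlinarith [sq_nonneg (‖f (iR j (β * γ))‖ - ‖f (iR j γ)‖)]
    have h3 : (Fintype.card (BB m j) : ℝ) * ‖f (iR j β)‖ ^ 2
        ≤ 4 * ∑ γ : BB m j, ‖f (iR j γ)‖ ^ 2 := by
      have h4 : ∑ _γ : BB m j, ‖f (iR j β)‖ ^ 2
          ≤ ∑ γ : BB m j, (2 * ‖f (iR j (β * γ))‖ ^ 2 + 2 * ‖f (iR j γ)‖ ^ 2) :=
        Finset.sum_le_sum fun γ _ => h2 γ
      rw [Finset.sum_const, Finset.card_univ, nsmul_eq_mul, Finset.sum_add_distrib,
        ← Finset.mul_sum, ← Finset.mul_sum] at h4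
      have h5 : ∑ γ : BB m j, ‖f (iR j (β * γ))‖ ^ 2 = ∑ γ : BB m j, ‖f (iR j γ)‖ ^ 2 :=
        Equiv.sum_comp (Equiv.mulLeft β) (fun γ => ‖f (iR j γ)‖ ^ 2)
      rw [h5] at h4
      linarith
    have h4 : ‖f (iR j β)‖ ^ 2
        ≤ 4 * ((∑ γ : BB m j, ‖f (iR j γ)‖ ^ 2) / (Fintype.card (BB m j) : ℝ)) := by
      rw [← mul_div_assoc, le_div_iff₀ (hcard j)]
      linarith
    have h5 := hDj j
    linarith
  have h1' : ∀ (j : Bool) (β : BB m j), ‖f (iR j β)‖ ≤ Real.sqrt (4 * D) := by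
    intro j β
    exact Real.le_sqrt_of_sq_le (h1 j β)
  have hf1 : f 1 = 0 := by
    have h2 := hf 1 1
    rw [mul_one, map_one] at h2
    have h3 : (1 : H ≃ₗᵢ[ℝ] H) (f 1) = f 1 := rfl
    rw [h3] at h2
    have h4 : f 1 + 0 = f 1 + f 1 := by rw [add_zero]; exact h2
    exact (add_left_cancel h4).symm
  have hind : ∀ l : List G, (∀ s ∈ l, ∃ (j : Bool) (β : BB m j), s = iR j β) →
      ‖f l.prod‖ ≤ l.length * Real.sqrt (4 * D) := by
    intro l
    induction l with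
    | nil => intro _; simp [hf1]
    | cons s l ih =>
      intro hl
      obtain ⟨j, β, hs⟩ := hl s (by simp)
      have h2 := ih (fun s hs => hl s (List.mem_cons_of_mem _ hs))
      rw [List.prod_cons, hf, List.length_cons]
      have h3 := norm_add_le (f s) (U s (f l.prod))
      rw [(U s).norm_map] at h3
      have h4 := h1' j β
      rw [← hs] at h4
      push_cast
      linarith
  obtain ⟨l, hl1, hl2, hl3⟩ := hK m G iA iR hrel σ
  have h2 := hind l hl2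
  rw [hl3] at h2
  have h3 : ‖f (iA σ)‖ ≤ K * Real.sqrt (4 * D) := by
    refine h2.trans ?_
    apply mul_le_mul_of_nonneg_right _ (Real.sqrt_nonneg _)
    exact_mod_cast hl1
  have h4 := pow_le_pow_left₀ (norm_nonneg _) h3 2
  rw [mul_pow, Real.sq_sqrt (by positivity)] at h4
  linarith

end Pool.Agent.Helper889.Hn
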