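import Mathlib
import Pool.Agent.Helper889.Hn.Words

set_option autoImplicit false
set_option linter.unusedSectionVars false
set_option linter.unusedVariables false

namespace Pool.Agent.Helper889.Hn

open Equiv in
theorem ev7 (a b c : Fin 7) (hab : a ≠ b) (hac : a ≠ c) : swap a b * swap a c ∈ alternatingGroup (Fin 7) := by
  rw [Equiv.Perm.mem_alternatingGroup, Equiv.Perm.sign_mul, Equiv.Perm.sign_swap hab, Equiv.Perm.sign_swap hac]
  rfl

open Equiv in
theorem conj7 (f : Perm (Fin 7)) (a b c : Fin 7) :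
    f * (swap a b * swap a c) * f⁻¹ = swap (f a) (f b) * swap (f a) (f c) := by
  rw [Equiv.swap_apply_apply, Equiv.swap_apply_apply]
  group

open Equiv in
/-- membership of a 3-cycle -/
def T7 (S : Subgroup A0) (a b c : Fin 7) : Prop := ∃ g ∈ S, g.1 = swap a b * swap a c

open Equiv in
theorem rot7aux : ∀ a b c : Fin 7, a ≠ b → a ≠ c → b ≠ c → swap a b * swap a c = swap b c * swap b a := by
  intro a b c hab hac hbc
  ext z
  congr 1
  simp only [Equiv.Perm.mul_apply, Equiv.swap_apply_def]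
  by_cases h1 : z = a
  · subst h1
    simp [hab, hac, hbc, hab.symm, hac.symm, hbc.symm]
  · by_cases h2 : z = b
    · subst h2
      simp [hab, hac, hbc, hab.symm, hac.symm, hbc.symm]
    · by_cases h3 : z = c
      · subst h3
        simp [hab, hac, hbc, hab.symm, hac.symm, hbc.symm]
      · simp [h1, h2, h3]

theorem rot7 {S : Subgroup A0} {a b c : Fin 7} (hab : a ≠ b) (hac : a ≠ c) (hbc : b ≠ c)
    (h : T7 S a b c) : T7 S b c a := by
  obtain ⟨g, hg, he⟩ := h
  exact ⟨g, hg, by rw [he, rot7aux a b c hab hac hbc]⟩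

theorem ex7 (a b c d e : Fin 7) : ∃ u : Fin 7, u ≠ a ∧ u ≠ b ∧ u ≠ c ∧ u ≠ d ∧ u ≠ e := by
  by_contra h
  push Not at h
  have h1 : (Finset.univ : Finset (Fin 7)) ⊆ {a, b, c, d, e} := by
    intro u _
    simp only [Finset.mem_insert, Finset.mem_singleton]
    by_cases h1 : u = a
    · exact Or.inl h1
    · by_cases h2 : u = b
      · exact Or.inr (Or.inl h2)
      · by_cases h3 : u = c
        · exact Or.inr (Or.inr (Or.inl h3))
        · by_cases h4 : u = d
          · exact Or.inr (Or.inr (Or.inr (Or.inl h4)))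
          · exact Or.inr (Or.inr (Or.inr (Or.inr (h u h1 h2 h3 h4))))
  have h2 := Finset.card_le_card h1
  have h3 : ({a, b, c, d, e} : Finset (Fin 7)).card ≤ 5 := Finset.card_le_five
  rw [Finset.card_univ, Fintype.card_fin] at h2
  omega

open Equiv in
theorem move7 {S : Subgroup A0}
    (h2 : ∀ (j : Bool) (β ρ : A0), β.1 (yy j) = yy j → ρ.1 (yy j) = yy j → ρ ∈ S → β * ρ * β⁻¹ ∈ S)
    (j : Bool) {a b c : Fin 7} (d : Fin 7) (hab : a ≠ b) (hac : a ≠ c) (hbc : b ≠ c)
    (ha : a ≠ yy j) (hb : b ≠ yy j) (hc : c ≠ yy j) (hd : d ≠ yy j) (hda : d ≠ a) (hdb : d ≠ b)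
    (h : T7 S a b c) : T7 S a b d := by
  by_cases hcd : c = d
  · subst hcd; exact h
  · obtain ⟨e, ea, eb, ec, ed, ey⟩ := ex7 a b c d (yy j)
    obtain ⟨g, hg, he⟩ := h
    have hβ := ev7 c e d (Ne.symm ec) hcd
    refine ⟨⟨_, hβ⟩ * g * (⟨_, hβ⟩)⁻¹, h2 j ⟨_, hβ⟩ g ?_ ?_ hg, ?_⟩
    · show (swap c e * swap c d) (yy j) = yy j
      rw [Equiv.Perm.mul_apply, swap_apply_of_ne_of_ne (Ne.symm hc) (Ne.symm hd),
        swap_apply_of_ne_of_ne (Ne.symm hc) (Ne.symm ey)]
    · rw [he, Equiv.Perm.mul_apply, swap_apply_of_ne_of_ne (Ne.symm ha) (Ne.symm hc),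
        swap_apply_of_ne_of_ne (Ne.symm ha) (Ne.symm hb)]
    · show (swap c e * swap c d) * g.1 * (swap c e * swap c d)⁻¹ = swap a b * swap a d
      rw [he, conj7]
      have e1 : (swap c e * swap c d) a = a := by
        rw [Equiv.Perm.mul_apply, swap_apply_of_ne_of_ne hac (Ne.symm hda),
          swap_apply_of_ne_of_ne hac (Ne.symm ea)]
      have e2 : (swap c e * swap c d) b = b := by
        rw [Equiv.Perm.mul_apply, swap_apply_of_ne_of_ne hbc (Ne.symm hdb),
          swap_apply_of_ne_of_ne hbc (Ne.symm eb)]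
      have e3 : (swap c e * swap c d) c = d := by
        rw [Equiv.Perm.mul_apply, swap_apply_left, swap_apply_of_ne_of_ne (Ne.symm hcd) (Ne.symm ed)]
      rw [e1, e2, e3]

theorem all7 {S : Subgroup A0}
    (h2 : ∀ (j : Bool) (β ρ : A0), β.1 (yy j) = yy j → ρ.1 (yy j) = yy j → ρ ∈ S → β * ρ * β⁻¹ ∈ S)
    (j : Bool) {x y z : Fin 7} (hxy : x ≠ y) (hxz : x ≠ z) (hyz : y ≠ z) (hx : x ≠ yy j) (hy : y ≠ yy j)
    (hz : z ≠ yy j) (h : T7 S x y z) {a b c : Fin 7} (hab : a ≠ b) (hac : a ≠ c) (hbc : b ≠ c)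
    (ha : a ≠ yy j) (hb : b ≠ yy j) (hc : c ≠ yy j) : T7 S a b c := by
  -- z → z'
  obtain ⟨z', zx, zy, za, zb, zj⟩ := ex7 x y a b (yy j)
  have s1 : T7 S x y z' := move7 h2 j z' hxy hxz hyz hx hy hz zj zx zy h
  -- y → y'
  obtain ⟨y', yx, yz, ya, yb, yj⟩ := ex7 x z' a b (yy j)
  have s2 : T7 S z' x y := rot7 (Ne.symm zy) hxy.symm zx (rot7 hxy (Ne.symm zx) (Ne.symm zy) s1)
  have s3 : T7 S z' x y' := move7 h2 j y' zx zy hxy zj hx hy yj yz yx s2
  -- now x → a : triple (x, y', z')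
  have s4 : T7 S y' z' x := rot7 (Ne.symm yx) (Ne.symm zx) yz (rot7 zx (Ne.symm yz) (Ne.symm yx) s3)
  have s5 : T7 S y' z' a := move7 h2 j a yz yx zx yj zj hx ha (Ne.symm ya) (Ne.symm za) s4
  -- now y' → b : (z', a, y')
  have s6 : T7 S z' a y' := rot7 yz ya za s5
  have s7 : T7 S z' a b := move7 h2 j b za (Ne.symm yz) (Ne.symm ya) zj ha yj hb (Ne.symm zb) (Ne.symm hab) s6
  have s8 : T7 S a b z' := rot7 za zb hab s7
  exact move7 h2 j c hab (Ne.symm za) (Ne.symm zb) ha hb zj hc (Ne.symm hac) (Ne.symm hbc) s8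

open Equiv in
theorem prod7aux (a b : Fin 7) (ha0 : a ≠ 0) (ha1 : a ≠ 1) (hb0 : b ≠ 0) (hb1 : b ≠ 1) (hab : a ≠ b) :
    swap 0 1 * swap 0 a = (swap 0 b * swap 0 a) * (swap 1 a * swap 1 b) := by
  have key : ∀ a b z : Fin 7, a ≠ 0 → a ≠ 1 → b ≠ 0 → b ≠ 1 → a ≠ b →
      (swap 0 1 (swap 0 a z)) = swap 0 b (swap 0 a (swap 1 a (swap 1 b z))) := by
    decide
  ext z
  exact congrArg _ (key a b z ha0 ha1 hb0 hb1 hab)

open Equiv in
/-- TARGET -/
theorem sub7 (S : Subgroup A0)
    (h1 : ∀ a b : A0, a.1 0 = 0 → a.1 1 = 1 → b.1 0 = 0 → b.1 1 = 1 → a * b * a⁻¹ * b⁻¹ ∈ S)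
    (h2 : ∀ (j : Bool) (β ρ : A0), β.1 (yy j) = yy j → ρ.1 (yy j) = yy j → ρ ∈ S → β * ρ * β⁻¹ ∈ S) : S = ⊤ := by
  have st : T7 S 2 6 4 := by
    refine ⟨_, h1 ⟨_, ev7 2 3 4 (by decide) (by decide)⟩ ⟨_, ev7 2 5 6 (by decide) (by decide)⟩
      (by decide) (by decide) (by decide) (by decide), ?_⟩
    show (swap 2 3 * swap 2 4 : Perm (Fin 7)) * (swap 2 5 * swap 2 6) * (swap 2 3 * swap 2 4)⁻¹ *
      (swap 2 5 * swap 2 6)⁻¹ = swap 2 6 * swap 2 4
    decide
  have k0 : ∀ {a b c : Fin 7}, a ≠ b → a ≠ c → b ≠ c → a ≠ 0 → b ≠ 0 → c ≠ 0 → T7 S a b c := by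
    intro a b c hab hac hbc ha hb hc
    exact all7 h2 false (x := 2) (y := 6) (z := 4) (by decide) (by decide) (by decide) (by decide)
      (by decide) (by decide) st hab hac hbc ha hb hc
  have k1 : ∀ {a b c : Fin 7}, a ≠ b → a ≠ c → b ≠ c → a ≠ 1 → b ≠ 1 → c ≠ 1 → T7 S a b c := by
    intro a b c hab hac hbc ha hb hc
    exact all7 h2 true (x := 2) (y := 6) (z := 4) (by decide) (by decide) (by decide) (by decide)
      (by decide) (by decide) st hab hac hbc ha hb hc
  -- 3-cycles through 0 and 1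
  have k01 : ∀ a : Fin 7, a ≠ 0 → a ≠ 1 → T7 S 0 1 a := by
    intro a ha0 ha1
    obtain ⟨b, b0, b1, ba, _, _⟩ := ex7 0 1 a a a
    obtain ⟨g, hg, hge⟩ := k1 (a := 0) (b := b) (c := a) (Ne.symm b0) (Ne.symm ha0) ba (by decide) b1 ha1
    obtain ⟨g', hg', hge'⟩ := k0 (a := 1) (b := a) (c := b) (Ne.symm ha1) (Ne.symm b1) (Ne.symm ba) (by decide) ha0 b0
    refine ⟨g * g', S.mul_mem hg hg', ?_⟩
    show g.1 * g'.1 = _
    rw [hge, hge', ← prod7aux a b ha0 ha1 b0 b1 (Ne.symm ba)]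
  have k10 : ∀ a : Fin 7, a ≠ 0 → a ≠ 1 → T7 S 0 a 1 := by
    intro a ha0 ha1
    obtain ⟨g, hg, hge⟩ := k01 a ha0 ha1
    refine ⟨g⁻¹, S.inv_mem hg, ?_⟩
    show g.1⁻¹ = _
    rw [hge, mul_inv_rev, swap_inv, swap_inv]
  have all : ∀ a b c : Fin 7, a ≠ b → a ≠ c → b ≠ c → T7 S a b c := by
    intro a b c hab hac hbc
    by_cases h0 : a ≠ 0 ∧ b ≠ 0 ∧ c ≠ 0
    · exact k0 hab hac hbc h0.1 h0.2.1 h0.2.2
    · by_cases h1 : a ≠ 1 ∧ b ≠ 1 ∧ c ≠ 1
      · exact k1 hab hac hbc h1.1 h1.2.1 h1.2.2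
      · -- contains both
        by_cases a0 : a = 0
        · subst a0
          by_cases b1 : b = 1
          · subst b1
            exact k01 c hac.symm hbc.symm
          · have c1 : c = 1 := by
              by_contra hc
              exact h1 ⟨by decide, b1, hc⟩
            subst c1
            exact k10 b hab.symm b1
        · by_cases b0 : b = 0
          · subst b0
            -- a 0 c  : rotate of 0 c a
            by_cases c1 : c = 1
            · subst c1
              have := k01 a a0 hac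
              exact rot7 hac.symm (by decide) hab (rot7 (by decide) hab.symm hac.symm this)
            · have a1 : a = 1 := by
                by_contra ha
                exact h1 ⟨ha, by decide, c1⟩
              subst a1
              have := k10 c hbc.symm c1
              exact rot7 (Ne.symm hac) (Ne.symm hbc) (by decide) (rot7 hbc (by decide) (Ne.symm hac) this)
          · have c0 : c = 0 := by
              by_contra hc
              exact h0 ⟨a0, b0, hc⟩
            subst c0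
            -- a b 0 : rotate of 0 a b
            by_cases a1 : a = 1
            · subst a1
              have := k01 b b0 (Ne.symm hab)
              exact rot7 (by decide) (Ne.symm b0) hab this
            · have b1 : b = 1 := by
                by_contra hb
                exact h1 ⟨a1, hb, by decide⟩
              subst b1
              have := k10 a a0 a1
              exact rot7 (Ne.symm a0) (by decide) hab this
  have h3 : (swap (2 : Fin 7) 3 * swap 2 4).IsThreeCycle :=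
    Equiv.Perm.isThreeCycle_swap_mul_swap_same (by decide) (by decide) (by decide)
  have h4 := h3.alternating_normalClosure (by simp)
  rw [eq_top_iff, ← h4]
  unfold Subgroup.normalClosure
  rw [Subgroup.closure_le]
  intro x hx
  rw [Group.mem_conjugatesOfSet_iff] at hx
  obtain ⟨f, hf, hc⟩ := hx
  rw [Set.mem_singleton_iff] at hf
  subst hf
  rw [isConj_iff] at hc
  obtain ⟨g, hg⟩ := hc
  obtain ⟨s, hs, hse⟩ := all (g.1 2) (g.1 3) (g.1 4) (fun h => by simpa using g.1.injective h)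
    (fun h => by simpa using g.1.injective h) (fun h => by simpa using g.1.injective h)
  have : x = s := by
    apply Subtype.ext
    rw [hse, ← conj7, ← hg]
    rfl
  rw [this]
  exact hs

end Pool.Agent.Helper889.Hn
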