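import Mathlib
import Pool.Agent.Helper889.Hn.Words

set_option autoImplicit false
set_option linter.unusedSectionVars false
set_option linter.unusedVariables false

namespace Pool.Agent.Helper889.Hn

/-- TARGET: amenability passes to subgroups -/
theorem mean_of_subgroup {M : Type} [Group M] (D : Subgroup M)
    (hM : ∃ m : Set M → ℝ, (∀ A, 0 ≤ m A) ∧ m Set.univ = 1 ∧ (∀ A B, Disjoint A B → m (A ∪ B) = m A + m B) ∧
      ∀ (g : M) A, m ((fun x => g * x) '' A) = m A) :
    ∃ m : Set D → ℝ, (∀ A, 0 ≤ m A) ∧ m Set.univ = 1 ∧ (∀ A B, Disjoint A B → m (A ∪ B) = m A + m B) ∧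
      ∀ (g : D) A, m ((fun x => g * x) '' A) = m A := by
  classical
  obtain ⟨m, hm0, hm1, hmadd, hminv⟩ := hM
  let t : M → M := fun x => (Quotient.mk (QuotientGroup.rightRel D) x).out
  have hD : ∀ x, x * (t x)⁻¹ ∈ D := by
    intro x
    have h1 : (QuotientGroup.rightRel D) (t x) x := Quotient.exact (Quotient.out_eq _)
    exact QuotientGroup.rightRel_apply.mp h1
  have ht : ∀ (g : D) (x : M), t ((g : M) * x) = t x := by
    intro g x
    have h1 : Quotient.mk (QuotientGroup.rightRel D) ((g : M) * x)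
        = Quotient.mk (QuotientGroup.rightRel D) x := by
      apply Quotient.sound
      apply QuotientGroup.rightRel_apply.mpr
      have : x * ((g : M) * x)⁻¹ = (g : M)⁻¹ := by group
      rw [this]
      exact D.inv_mem g.2
    show (Quotient.mk (QuotientGroup.rightRel D) ((g : M) * x)).out = _
    rw [h1]
  let d : M → D := fun x => ⟨x * (t x)⁻¹, hD x⟩
  have hd : ∀ (g : D) (x : M), d ((g : M) * x) = g * d x := by
    intro g x
    apply Subtype.ext
    show (g : M) * x * (t ((g : M) * x))⁻¹ = (g : M) * (x * (t x)⁻¹)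
    rw [ht, mul_assoc]
  refine ⟨fun A => m (d ⁻¹' A), fun A => hm0 _, ?_, ?_, ?_⟩
  · show m (d ⁻¹' Set.univ) = 1
    rw [Set.preimage_univ, hm1]
  · intro A B hAB
    show m (d ⁻¹' (A ∪ B)) = _
    rw [Set.preimage_union]
    exact hmadd _ _ (hAB.preimage d)
  · intro g A
    show m (d ⁻¹' ((fun x => g * x) '' A)) = m (d ⁻¹' A)
    rw [← hminv (g : M) (d ⁻¹' A)]
    congr 1
    ext x
    simp only [Set.mem_preimage, Set.mem_image]
    constructor
    · rintro ⟨a, ha, hx⟩
      refine ⟨(g : M)⁻¹ * x, ?_, by group⟩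
      have h1 := hd g⁻¹ x
      have h2 : d ((g : M)⁻¹ * x) = g⁻¹ * d x := h1
      rw [h2, ← hx]
      simpa using ha
    · rintro ⟨y, hy, rfl⟩
      exact ⟨d y, hy, (hd g y).symm⟩

end Pool.Agent.Helper889.Hn
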