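import Mathlib
import Pool.Agent.Helper889.Hn.Main
import Pool.Agent.Helper889.Hn.Sub7
import Pool.Agent.Helper889.Hn.Reach
import Pool.Agent.Helper889.Hn.Root
import Pool.Agent.Helper889.Hn.Branch
import Pool.Agent.Helper889.Hn.PPl
import Pool.Agent.Helper889.Hn.PerfBB
import Pool.Agent.Helper889.Hn.RelW
import Pool.Agent.Helper889.Hn.Cnt
import Pool.Agent.Helper889.Hn.Gadget
import Pool.Agent.Helper889.Hn.Real1
import Pool.Agent.Helper889.Hn.Real2
import Pool.Agent.Helper889.Hn.Real3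
import Pool.Agent.Helper889.Hn.Submean
import Pool.Agent.Helper889.Hn.CoreEx
import Pool.Agent.Helper889.Hn.Folh
import Pool.Agent.Helper889.Nc.Fol

set_option autoImplicit false
set_option linter.unusedSectionVars false
set_option linter.unusedVariables false

namespace Pool.Agent.Helper889.Hn

theorem hgen (m : ℕ) (σ : AA m) : rt m σ ∈ Subgroup.closure (⋃ j, Set.range (rr m j)) := by
  obtain ⟨K, hK⟩ := reach sub7
  obtain ⟨l, _, hl, hp⟩ := hK m _ (rt m) (rr m) (rel_words m) σ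
  rw [← hp]
  apply Subgroup.list_prod_mem
  intro s hs
  obtain ⟨j, β, rfl⟩ := hl s hs
  apply Subgroup.subset_closure
  exact Set.mem_iUnion.mpr ⟨j, β, rfl⟩

theorem core_GG (m : ℕ) (hm : 0 < m) : ∃ c : Core (actA m) (BB m) (QQ m) (GG m),
    (∀ a, ((c.iA a : GG m) : Equiv.Perm (ℕ → XX m)) = rt m a) ∧
      (∀ j b, ((c.iR j b : GG m) : Equiv.Perm (ℕ → XX m)) = rr m j b) :=
  core_exists m hm (conj_PP m) (rr_eq m) (PP_single_mem m (conj_PP m) (rr_eq m) (perfBB m) (hgen m))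

/-- for large `m` the group `GG m` has no invariant mean -/
theorem GG_no_mean : ∃ m : ℕ, 0 < m ∧ ¬ ∃ μ : Set (GG m) → ℝ, (∀ A, 0 ≤ μ A) ∧ μ Set.univ = 1 ∧
    (∀ A B, Disjoint A B → μ (A ∪ B) = μ A + μ B) ∧ ∀ (g : GG m) A, μ ((fun x => g * x) '' A) = μ A := by
  obtain ⟨C, hC, hroot⟩ := root_bound (reach sub7)
  obtain ⟨M, hM⟩ := exists_nat_gt (2 * (1 + 4 * C))
  refine ⟨M + 1, Nat.succ_pos M, ?_⟩
  rintro ⟨μ, h0, h1, hadd, hinv⟩
  obtain ⟨c, hcA, hcR⟩ := core_GG (M + 1) (Nat.succ_pos M)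
  have hrel : Rel c.iA c.iR := by
    obtain ⟨r1, r2⟩ := rel_words (M + 1)
    refine ⟨?_, ?_⟩
    · intro a b ha0 ha1 hb0 hb1
      apply Subtype.ext
      have := r1 a b ha0 ha1 hb0 hb1
      simp only [Subgroup.coe_mul, Subgroup.coe_inv, hcA, hcR]
      exact this
    · intro j β ρ
      apply Subtype.ext
      have := r2 j β ρ
      simp only [Subgroup.coe_mul, Subgroup.coe_inv, hcA, hcR]
      exact this
  have hσ : ∃ σ₀ : AA (M + 1), σ₀ ≠ 1 := by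
    refine ⟨fun _ => ⟨Equiv.swap 0 1 * Equiv.swap 1 2, Equiv.Perm.mem_alternatingGroup.mpr (by decide)⟩, ?_⟩
    intro h
    have h1 := congrArg (fun σ : AA (M + 1) => (σ 0).1 0) h
    revert h1
    show ¬ ((Equiv.swap 0 1 * Equiv.swap 1 2 : Equiv.Perm (Fin 7)) 0 = 0)
    decide
  obtain ⟨σ₀, hσ₀⟩ := hσ
  refine c.no_mean (cardBB (M + 1)) (0, 0) (0, 1) ?_ σ₀ hσ₀ 7 (by norm_num) (cnt7 (M + 1)) C hC
    (fun H _ _ U f hf σ => hroot (M + 1) (GG (M + 1)) c.iA c.iR hrel H U f hf σ) ?_ μ h0 h1 hadd hinv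
  · intro h
    have h4 : (0 : Fin 7) = 1 := congrArg Prod.snd h
    exact absurd h4 (by decide)
  · have h3 : Fintype.card (XX (M + 1)) = (M + 1) * 7 := by simp [XX]
    rw [h3]
    push_cast
    linarith

/-- the coding map -/
def cd {k m : ℕ} (n : ℕ) (e : XX m ↪ Fin k) (ω : ℕ → XX m) : ℕ → Fin k := code n (e ∘ ω)

theorem cd_inj {k m : ℕ} (n : ℕ) (e : XX m ↪ Fin k) : Function.Injective (cd n e) := by
  intro ω ω' h
  funext t
  have h1 := congrFun h (t * 2 ^ n)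
  simp only [cd, code, Function.comp] at h1
  rw [Nat.mul_div_cancel _ (by positivity)] at h1
  exact e.injective h1

theorem real_all {k m n : ℕ} (hX : Fintype.card (XX m) = n + 2) (hk : 2 * Fintype.card (XX m) ≤ k) (e : XX m ↪ Fin k)
    (f : Equiv.Perm (ℕ → XX m)) (hf : f ∈ GG m) : ∃ g ∈ HK k, ∀ ω, g (cd n e ω) = cd n e (f ω) := by
  have h2 : ∀ (T : Fin k → Bool), (Finset.univ.filter fun z => T z = true).card = n + 2 →
      ∀ (σ : Equiv.Perm (Fin k)), (∀ z, T z = false → σ z = z) →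
        ∃ g ∈ HK k, ∀ ω : ℕ → Fin k, g (code n ω) = code n (RF T σ ω) := by
    intro T hT σ hσ
    exact real2 k n T (fun i j hi hj hij => real1 k (fun T i j c => gadget T i j c) n T hT i j hi hj hij) σ hσ
  have h3 := fun (T : XX m → Bool) (σ : Equiv.Perm (XX m)) (hσ : ∀ x, T x = false → σ x = x) =>
    real3 k n h2 hX hk e T σ hσ
  induction hf using Subgroup.closure_induction with
  | mem f hf =>
    rcases hf with ⟨σ, rfl⟩ | hf
    · exact h3 _ _ (AA_fx m σ)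
    · obtain ⟨j, β, rfl⟩ := Set.mem_iUnion.mp hf
      exact h3 _ _ (BB_fx m j β)
  | one => exact ⟨1, one_mem _, fun ω => rfl⟩
  | mul f f' _ _ ih ih' =>
    obtain ⟨g, hg, h⟩ := ih
    obtain ⟨g', hg', h'⟩ := ih'
    refine ⟨g * g', mul_mem hg hg', fun ω => ?_⟩
    rw [Equiv.Perm.mul_apply, h', h]
    rfl
  | inv f _ ih =>
    obtain ⟨g, hg, h⟩ := ih
    refine ⟨g⁻¹, inv_mem hg, fun ω => ?_⟩
    rw [Equiv.Perm.inv_eq_iff_eq, h, ← Equiv.Perm.mul_apply, mul_inv_cancel]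
    rfl

/-- a mean on the Hanoi group gives one on `GG m` -/
theorem mean_transfer {k m n : ℕ} (hX : Fintype.card (XX m) = n + 2) (hk : 2 * Fintype.card (XX m) ≤ k) (e : XX m ↪ Fin k)
    (hM : ∃ μ : Set (HK k) → ℝ, (∀ A, 0 ≤ μ A) ∧ μ Set.univ = 1 ∧ (∀ A B, Disjoint A B → μ (A ∪ B) = μ A + μ B) ∧
      ∀ (g : HK k) A, μ ((fun x => g * x) '' A) = μ A) :
    ∃ μ : Set (GG m) → ℝ, (∀ A, 0 ≤ μ A) ∧ μ Set.univ = 1 ∧ (∀ A B, Disjoint A B → μ (A ∪ B) = μ A + μ B) ∧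
      ∀ (g : GG m) A, μ ((fun x => g * x) '' A) = μ A := by
  classical
  let D : Subgroup (HK k) :=
    { carrier := {g | ∃ f : GG m, ∀ ω, g.1 (cd n e ω) = cd n e (f.1 ω)}
      one_mem' := ⟨1, fun ω => rfl⟩
      mul_mem' := by
        rintro g g' ⟨f, h⟩ ⟨f', h'⟩
        refine ⟨f * f', fun ω => ?_⟩
        show g.1 (g'.1 (cd n e ω)) = cd n e (f.1 (f'.1 ω))
        rw [h', h]
      inv_mem' := by
        rintro g ⟨f, h⟩
        refine ⟨f⁻¹, fun ω => ?_⟩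
        show (g.1)⁻¹ (cd n e ω) = cd n e ((f.1)⁻¹ ω)
        rw [Equiv.Perm.inv_eq_iff_eq, h, ← Equiv.Perm.mul_apply, mul_inv_cancel]
        rfl }
  have huniq : ∀ (f f' : GG m), (∀ ω, cd n e (f.1 ω) = cd n e (f'.1 ω)) → f = f' := by
    intro f f' h
    apply Subtype.ext
    ext1 ω
    exact cd_inj n e (h ω)
  have hD : ∀ g : D, ∃ f : GG m, ∀ ω, g.1.1 (cd n e ω) = cd n e (f.1 ω) := fun g => g.2
  choose F hF using hD
  let φ : D →* GG m := MonoidHom.mk' F (by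
    intro a b
    apply huniq
    intro ω
    rw [← hF (a * b) ω]
    show a.1.1 (b.1.1 (cd n e ω)) = cd n e ((F a).1 ((F b).1 ω))
    rw [hF b, hF a])
  have hφ : Function.Surjective φ := by
    intro f
    obtain ⟨g, hg, h⟩ := real_all hX hk e f.1 f.2
    refine ⟨⟨⟨g, hg⟩, ⟨f, h⟩⟩, ?_⟩
    apply huniq
    intro ω
    have h1 := hF ⟨⟨g, hg⟩, ⟨f, h⟩⟩ ω
    rw [← h ω]
    exact h1.symm
  exact Pool.Agent.Helper889.Nc.mean_of_surjective φ hφ (mean_of_subgroup D hM)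

/-- for some `k ≥ 4` the Hanoi towers group on `k` pegs has no invariant mean -/
theorem hanoi_no_mean : ∃ k : ℕ, 4 ≤ k ∧ ¬ ∃ μ : Set (HK k) → ℝ, (∀ A, 0 ≤ μ A) ∧ μ Set.univ = 1 ∧
    (∀ A B, Disjoint A B → μ (A ∪ B) = μ A + μ B) ∧ ∀ (g : HK k) A, μ ((fun x => g * x) '' A) = μ A := by
  obtain ⟨m, hm, hno⟩ := GG_no_mean
  have h3 : Fintype.card (XX m) = m * 7 := by simp [XX]
  have e0 : Fintype.card (XX m) ≤ Fintype.card (Fin (2 * Fintype.card (XX m))) := by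
    rw [Fintype.card_fin]; omega
  obtain ⟨e⟩ := Function.Embedding.nonempty_of_card_le e0
  refine ⟨2 * Fintype.card (XX m), by omega, fun hM => hno ?_⟩
  exact mean_transfer (n := Fintype.card (XX m) - 2) (by omega) (le_refl _) e hM

end Pool.Agent.Helper889.Hn
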