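import Mathlib
import Pool.Agent.Helper889.Hn.Words

set_option autoImplicit false
set_option linter.unusedSectionVars false
set_option linter.unusedVariables false

namespace Pool.Agent.Helper889.Hn
namespace HL

/-- The automorphism `a_{ij}` of the rooted `k`-ary tree (vertices are finite words): it fixes the
empty word, `a_{ij}(iw) = jw`, `a_{ij}(jw) = iw`, and `a_{ij}(xw) = x a_{ij}(w)` for `x ∉ {i, j}`. -/
def a {k : ℕ} (i j : Fin k) : List (Fin k) → List (Fin k)
  | [] => []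
  | x :: w => if x = i then j :: w else if x = j then i :: w else x :: a i j w

theorem a_invol {k : ℕ} (i j : Fin k) : Function.Involutive (a i j) := by
  intro w
  induction w with
  | nil => rfl
  | cons x w ih =>
    by_cases h1 : x = i
    · subst h1
      by_cases h2 : j = x
      · subst h2; simp [a]
      · simp [a, h2]
    · by_cases h2 : x = j
      · subst h2; simp [a, h1]
      · simp [a, h1, h2, ih]

/-- `a_{ij}` as a permutation of the vertices of the tree -/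
def aPerm {k : ℕ} (i j : Fin k) : Equiv.Perm (List (Fin k)) := (a_invol i j).toPerm

/-- The Hanoi towers group on `k` pegs, generated by the `a_{ij}` with `i < j`. -/
def Hanoi (k : ℕ) : Subgroup (Equiv.Perm (List (Fin k))) :=
  Subgroup.closure {g | ∃ i j : Fin k, i < j ∧ g = aPerm i j}

/-- the actions on finite and on infinite words agree -/
def Hanoi_to_HK_Rl {k : ℕ} (f : Equiv.Perm (List (Fin k))) (g : Equiv.Perm (ℕ → Fin k)) : Prop :=
  ∀ (ω : ℕ → Fin k) (n : ℕ), f ((List.range n).map ω) = (List.range n).map (g ω)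

theorem Hanoi_to_HK_map_cns {k : ℕ} (x : Fin k) (ω : ℕ → Fin k) (n : ℕ) :
    (List.range (n + 1)).map (cns x ω) = x :: (List.range n).map ω := by
  rw [List.range_succ_eq_map, List.map_cons, List.map_map]
  rfl

theorem Hanoi_to_HK_gen {k : ℕ} (i j : Fin k) : Hanoi_to_HK_Rl (aPerm i j) (han i j) := by
  intro ω n
  show a i j ((List.range n).map ω) = (List.range n).map (RF (hanT i j) (Equiv.swap i j) ω)
  induction n generalizing ω with
  | zero => rfl
  | succ n ih =>
    rw [← cns_eta ω, RF_cns _ _ (hanT_fx i j), Hanoi_to_HK_map_cns]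
    by_cases h1 : ω 0 = i
    · have hT : hanT i j (ω 0) = true := by simp [hanT, h1]
      rw [if_pos hT, Hanoi_to_HK_map_cns, h1, Equiv.swap_apply_left]
      simp only [a, if_true]
    · by_cases h2 : ω 0 = j
      · have hT : hanT i j (ω 0) = true := by simp [hanT, h2]
        have h3 : ¬ (j = i) := fun h => h1 (h2.trans h)
        rw [if_pos hT, Hanoi_to_HK_map_cns, h2, Equiv.swap_apply_right]
        simp only [a, if_neg h3, if_true]
      · have hT : ¬ (hanT i j (ω 0) = true) := by simp [hanT, h1, h2]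
        rw [if_neg hT, Hanoi_to_HK_map_cns]
        simp only [a, if_neg h1, if_neg h2]
        rw [ih]

theorem Hanoi_to_HK_one {k : ℕ} : Hanoi_to_HK_Rl (1 : Equiv.Perm (List (Fin k))) 1 := fun _ _ => rfl

theorem Hanoi_to_HK_mul {k : ℕ} {f f' : Equiv.Perm (List (Fin k))} {g g' : Equiv.Perm (ℕ → Fin k)}
    (h : Hanoi_to_HK_Rl f g) (h' : Hanoi_to_HK_Rl f' g') : Hanoi_to_HK_Rl (f * f') (g * g') := by
  intro ω n
  rw [Equiv.Perm.mul_apply, h', h, Equiv.Perm.mul_apply]

theorem Hanoi_to_HK_inv {k : ℕ} {f : Equiv.Perm (List (Fin k))} {g : Equiv.Perm (ℕ → Fin k)}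
    (h : Hanoi_to_HK_Rl f g) : Hanoi_to_HK_Rl f⁻¹ g⁻¹ := by
  intro ω n
  rw [Equiv.Perm.inv_eq_iff_eq, h, ← Equiv.Perm.mul_apply, mul_inv_cancel, Equiv.Perm.one_apply]

theorem Hanoi_to_HK_unique {k : ℕ} {f : Equiv.Perm (List (Fin k))} {g g' : Equiv.Perm (ℕ → Fin k)}
    (h : Hanoi_to_HK_Rl f g) (h' : Hanoi_to_HK_Rl f g') : g = g' := by
  ext1 ω
  funext t
  have h1 := (h ω (t + 1)).symm.trans (h' ω (t + 1))
  exact (List.map_inj_left.1 h1) t (List.mem_range.2 (Nat.lt_succ_self t))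

theorem Hanoi_to_HK_symm {k : ℕ} (i j : Fin k) (w : List (Fin k)) : a i j w = a j i w := by
  induction w with
  | nil => rfl
  | cons x w ih =>
    simp only [a]
    by_cases h1 : x = i
    · by_cases h2 : x = j
      · rw [if_pos h1, if_pos h2, ← h1, ← h2]
      · rw [if_pos h1, if_neg h2, if_pos h1]
    · by_cases h2 : x = j
      · rw [if_neg h1, if_pos h2, if_pos h2]
      · rw [if_neg h1, if_neg h2, if_neg h2, if_neg h1, ih]

theorem Hanoi_to_HK_self {k : ℕ} (i : Fin k) (w : List (Fin k)) : a i i w = w := by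
  induction w with
  | nil => rfl
  | cons x w ih =>
    simp only [a]
    by_cases h1 : x = i
    · rw [if_pos h1, h1]
    · rw [if_neg h1, if_neg h1, ih]

theorem Hanoi_to_HK_mem {k : ℕ} (i j : Fin k) : aPerm i j ∈ Hanoi k := by
  rcases lt_trichotomy i j with h | h | h
  · exact Subgroup.subset_closure ⟨i, j, h, rfl⟩
  · subst h
    have h1 : aPerm i i = 1 := by
      ext1 w; exact Hanoi_to_HK_self i w
    rw [h1]; exact Subgroup.one_mem _
  · have h1 : aPerm i j = aPerm j i := by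
      ext1 w; exact Hanoi_to_HK_symm i j w
    rw [h1]
    exact Subgroup.subset_closure ⟨j, i, h, rfl⟩

theorem Hanoi_to_HK_ex1 {k : ℕ} (f : Equiv.Perm (List (Fin k))) (hf : f ∈ Hanoi k) :
    ∃ g ∈ HK k, Hanoi_to_HK_Rl f g := by
  unfold Hanoi at hf
  induction hf using Subgroup.closure_induction with
  | mem x hx =>
    obtain ⟨i, j, _, rfl⟩ := hx
    exact ⟨han i j, Subgroup.subset_closure ⟨(i, j), rfl⟩, Hanoi_to_HK_gen i j⟩
  | one => exact ⟨1, Subgroup.one_mem _, Hanoi_to_HK_one⟩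
  | mul x y _ _ hx hy =>
    obtain ⟨g, hg, h⟩ := hx
    obtain ⟨g', hg', h'⟩ := hy
    exact ⟨g * g', Subgroup.mul_mem _ hg hg', Hanoi_to_HK_mul h h'⟩
  | inv x _ hx =>
    obtain ⟨g, hg, h⟩ := hx
    exact ⟨g⁻¹, Subgroup.inv_mem _ hg, Hanoi_to_HK_inv h⟩

theorem Hanoi_to_HK_ex2 {k : ℕ} (g : Equiv.Perm (ℕ → Fin k)) (hg : g ∈ HK k) :
    ∃ f ∈ Hanoi k, Hanoi_to_HK_Rl f g := by
  unfold HK at hg
  induction hg using Subgroup.closure_induction with
  | mem x hx =>
    obtain ⟨⟨i, j⟩, rfl⟩ := hx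
    exact ⟨aPerm i j, Hanoi_to_HK_mem i j, Hanoi_to_HK_gen i j⟩
  | one => exact ⟨1, Subgroup.one_mem _, Hanoi_to_HK_one⟩
  | mul x y _ _ hx hy =>
    obtain ⟨g, hg, h⟩ := hx
    obtain ⟨g', hg', h'⟩ := hy
    exact ⟨g * g', Subgroup.mul_mem _ hg hg', Hanoi_to_HK_mul h h'⟩
  | inv x _ hx =>
    obtain ⟨g, hg, h⟩ := hx
    exact ⟨g⁻¹, Subgroup.inv_mem _ hg, Hanoi_to_HK_inv h⟩

/-- TARGET: the action on finite words and the action on infinite words give the same group -/
theorem Hanoi_to_HK (k : ℕ) : ∃ φ : Hanoi k →* HK k, Function.Surjective φ := by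
  have h1 : ∀ f : Hanoi k, ∃ g : HK k, Hanoi_to_HK_Rl f.1 g.1 := by
    intro f
    obtain ⟨g, hg, h⟩ := Hanoi_to_HK_ex1 f.1 f.2
    exact ⟨⟨g, hg⟩, h⟩
  choose F hF using h1
  refine ⟨MonoidHom.mk' F (fun a b => Subtype.ext
    (Hanoi_to_HK_unique (hF (a * b)) (Hanoi_to_HK_mul (hF a) (hF b)))), ?_⟩
  intro g
  obtain ⟨f, hf, h⟩ := Hanoi_to_HK_ex2 g.1 g.2
  exact ⟨⟨f, hf⟩, Subtype.ext (Hanoi_to_HK_unique (hF ⟨f, hf⟩) h)⟩

end HL
end Pool.Agent.Helper889.Hn
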