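import Mathlib
import Pool.Agent.Helper889.Hn.Final

set_option autoImplicit false
set_option linter.unusedSectionVars false
set_option linter.unusedVariables false

namespace Pool.Agent.Helper889.Hn

/-- for all large `k` the Hanoi towers group on `k` pegs has no invariant mean -/
theorem hanoi_no_mean_large : ∃ K : ℕ, ∀ k : ℕ, K ≤ k → ¬ ∃ μ : Set (HK k) → ℝ, (∀ A, 0 ≤ μ A) ∧ μ Set.univ = 1 ∧
    (∀ A B, Disjoint A B → μ (A ∪ B) = μ A + μ B) ∧ ∀ (g : HK k) A, μ ((fun x => g * x) '' A) = μ A := by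
  obtain ⟨m, hm, hno⟩ := GG_no_mean
  refine ⟨2 * Fintype.card (XX m), fun k hk hM => hno ?_⟩
  have h3 : Fintype.card (XX m) = m * 7 := by simp [XX]
  have e0 : Fintype.card (XX m) ≤ Fintype.card (Fin k) := by
    rw [Fintype.card_fin]; omega
  obtain ⟨e⟩ := Function.Embedding.nonempty_of_card_le e0
  exact mean_transfer (n := Fintype.card (XX m) - 2) (by omega) hk e hM

end Pool.Agent.Helper889.Hn
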