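import Mathlib
import Pool.Agent.Helper889.Hn.Words

set_option autoImplicit false
set_option linter.unusedSectionVars false
set_option linter.unusedVariables false

namespace Pool.Agent.Helper889.Hn

/-- TARGET -/
theorem real3 (k n : ℕ)
    (h : ∀ (T : Fin k → Bool), (Finset.univ.filter fun z => T z = true).card = n + 2 →
      ∀ (σ : Equiv.Perm (Fin k)), (∀ z, T z = false → σ z = z) →
        ∃ g ∈ HK k, ∀ ω : ℕ → Fin k, g (code n ω) = code n (RF T σ ω))
    {X : Type} [Fintype X] [DecidableEq X] (hX : Fintype.card X = n + 2) (hk : 2 * Fintype.card X ≤ k) (e : X ↪ Fin k)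
    (T : X → Bool) (σ : Equiv.Perm X) (hσ : ∀ x, T x = false → σ x = x) :
    ∃ g ∈ HK k, ∀ ω : ℕ → X, g (code n (e ∘ ω)) = code n (e ∘ RF T σ ω) := by
  classical
  obtain ⟨aux, haux, hcard⟩ : ∃ aux ⊆ (Finset.univ.map e)ᶜ,
      aux.card = Fintype.card X - (Finset.univ.filter fun x => T x = true).card := by
    apply Finset.exists_subset_card_eq
    rw [Finset.card_compl, Finset.card_map, Finset.card_univ, Fintype.card_fin]
    omega
  have hnot : ∀ x : X, e x ∉ aux := by
    intro x hx
    have := haux hx
    rw [Finset.mem_compl] at this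
    exact this (Finset.mem_map_of_mem e (Finset.mem_univ x))
  let T' : Fin k → Bool := fun z => decide (z ∈ aux ∨ ∃ x, T x = true ∧ e x = z)
  have hT' : ∀ x, T' (e x) = T x := by
    intro x
    by_cases hx : T x = true
    · rw [hx]
      simp only [T', decide_eq_true_eq]
      exact Or.inr ⟨x, hx, rfl⟩
    · have hx' : T x = false := by simpa using hx
      rw [hx']
      simp only [T', decide_eq_false_iff_not]
      rintro (h1 | ⟨x', h1, h2⟩)
      · exact hnot x h1
      · rw [e.injective h2] at h1
        exact hx h1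
  let σ' : Equiv.Perm (Fin k) := σ.viaEmbedding e
  have hσ' : ∀ x, σ' (e x) = e (σ x) := fun x => Equiv.Perm.viaEmbedding_apply σ e x
  have hcT' : (Finset.univ.filter fun z => T' z = true).card = n + 2 := by
    have h1 : (Finset.univ.filter fun z => T' z = true) =
        aux ∪ (Finset.univ.filter fun x => T x = true).map e := by
      ext z
      simp only [T', Finset.mem_filter, Finset.mem_univ, true_and, decide_eq_true_eq,
        Finset.mem_union, Finset.mem_map]
    have h2 : Disjoint aux ((Finset.univ.filter fun x => T x = true).map e) := by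
      rw [Finset.disjoint_left]
      intro z hz hz2
      rw [Finset.mem_map] at hz2
      obtain ⟨x, -, rfl⟩ := hz2
      exact hnot x hz
    rw [h1, Finset.card_union_of_disjoint h2, Finset.card_map, hcard, ← hX]
    have h3 : (Finset.univ.filter fun x => T x = true).card ≤ Fintype.card X := Finset.card_le_univ _
    omega
  obtain ⟨g, hg, hgω⟩ := h T' hcT' σ' (by
    intro z hz
    by_cases hzr : z ∈ Set.range e
    · obtain ⟨x, rfl⟩ := hzr
      rw [hT'] at hz
      rw [hσ', hσ x hz]
    · exact Equiv.Perm.viaEmbedding_apply_of_notMem σ e z hzr)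
  refine ⟨g, hg, ?_⟩
  intro ω
  rw [hgω]
  congr 1
  funext t
  simp only [RF, Function.comp_apply, hT']
  by_cases hc : ∀ s < t, T (ω s) = false
  · rw [if_pos hc, if_pos hc, hσ']
  · rw [if_neg hc, if_neg hc]

end Pool.Agent.Helper889.Hn
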